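import Pool.Agent.Helper5.Roth.Index

/-!
# The lemma of Roth
-/

set_option autoImplicit false
set_option linter.unusedSectionVars false

namespace Pool.Agent.Helper5.Roth

open MvPolynomial

/-- a lower bound for the sum of the truncated terms -/
theorem sum_max_ge (k r : ℕ) (hk : 1 ≤ k) (hkr : k ≤ r + 1) (hr : 1 ≤ r) (θ : ℝ) (h0 : 0 < θ)
    (h1 : θ ≤ 1) : (k : ℝ) * θ ^ 2 / 8 ≤ ∑ b ∈ Finset.range k, max (θ - (b : ℝ) / r) 0 := by
  have hr0 : (0 : ℝ) < r := by exact_mod_cast hr
  set s : ℕ := ⌊θ * r / 2⌋₊ + 1 with hs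
  have hterm : ∀ b ∈ Finset.range (min k s), θ / 2 ≤ max (θ - (b : ℝ) / r) 0 := by
    intro b hb
    rw [Finset.mem_range, lt_min_iff] at hb
    have h2 : b ≤ ⌊θ * r / 2⌋₊ := by omega
    have h3 : (b : ℝ) ≤ θ * r / 2 := by
      refine le_trans (by exact_mod_cast h2) (Nat.floor_le (by positivity))
    have h4 : (b : ℝ) / r ≤ θ / 2 := by
      rw [div_le_iff₀ hr0]
      linarith
    exact le_max_of_le_left (by linarith)
  have hsub : Finset.range (min k s) ⊆ Finset.range k :=
    Finset.range_subset_range.mpr (min_le_left _ _)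
  have h5 : ((min k s : ℕ) : ℝ) * (θ / 2) ≤ ∑ b ∈ Finset.range k, max (θ - (b : ℝ) / r) 0 := by
    refine le_trans ?_ (Finset.sum_le_sum_of_subset_of_nonneg hsub fun _ _ _ => le_max_right _ _)
    refine le_trans ?_ (Finset.sum_le_sum hterm)
    rw [Finset.sum_const, Finset.card_range, nsmul_eq_mul]
  refine le_trans ?_ h5
  rcases le_total k s with h | h
  · rw [min_eq_left h]
    have hk0 : (0 : ℝ) < k := by exact_mod_cast hk
    nlinarith [mul_pos hk0 h0]
  · rw [min_eq_right h]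
    have h6 : θ * r / 2 ≤ (s : ℝ) := by
      rw [hs]
      push_cast
      exact (Nat.lt_floor_add_one _).le
    have h7 : (k : ℝ) ≤ 2 * r := by
      have : k ≤ 2 * r := by omega
      exact_mod_cast this
    have h8 : (k : ℝ) * θ ^ 2 / 8 ≤ (2 * r) * θ ^ 2 / 8 := by
      have : 0 ≤ θ ^ 2 := by positivity
      nlinarith
    have h9 : (2 * r) * θ ^ 2 / 8 ≤ (s : ℝ) * (θ / 2) := by
      nlinarith
    exact h8.trans h9

theorem sum_injective {k : ℕ} (b : Fin k → ℕ) (hb : ∀ i, b i < k) (hinj : Function.Injective b)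
    (f : ℕ → ℝ) : ∑ i, f (b i) = ∑ j ∈ Finset.range k, f j := by
  let b' : Fin k → Fin k := fun i => ⟨b i, hb i⟩
  have hb' : Function.Injective b' := fun i j h => hinj (by simpa [b'] using h)
  have hbij : Function.Bijective b' := Finite.injective_iff_bijective.mp hb'
  rw [← Fin.sum_univ_eq_sum_range]
  exact hbij.sum_comp (fun j : Fin k => f j)

/-- the conclusion of the lemma of Roth for polynomials in `m + 1` variables -/
def RothStmt (m : ℕ) (ε ω C : ℝ) : Prop :=
  ∀ (r : Fin (m + 1) → ℕ) (D : ℝ) (p : Fin (m + 1) → ℤ) (q : Fin (m + 1) → ℕ)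
    (P : MvPolynomial (Fin (m + 1)) ℤ), (∀ h, 1 ≤ r h) → (∀ h, (r h : ℝ) ≤ D) →
    (∀ h : Fin m, (r h.castSucc : ℝ) ≤ ω * r h.succ) → (∀ h, 1 ≤ q h) →
    (∀ h, IsCoprime (p h) (q h : ℤ)) → P ≠ 0 → (∀ h, P.degreeOf h ≤ r h) →
    (∀ h, Real.log (l1 P) + C * D ≤ ω * r h * Real.log (max (|p h| : ℝ) (q h))) →
    ∃ i : Fin (m + 1) →₀ ℕ, coeff i (shift (fun h => (p h : ℚ) / q h)
      (map (Int.castRingHom ℚ) P)) ≠ 0 ∧ ∑ h, (i h : ℝ) / r h < ε

theorem roth_zero (ε : ℝ) (hε : 0 < ε) : RothStmt 0 ε (ε / 2) 1 := by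
  intro r D p q P hr hD hchain hq hpq hP hdeg hlog
  obtain ⟨t, ht, ht'⟩ := base_case P hP (p 0) (q 0) (hq 0) (hpq 0)
  have hr1 : (1 : ℝ) ≤ r 0 := by exact_mod_cast hr 0
  have hD1 : 1 ≤ D := hr1.trans (hD 0)
  have hl0 : 0 ≤ Real.log (l1 P) := Real.log_nonneg (one_le_l1 hP)
  have h1 := hlog 0
  set H : ℝ := max (|p 0| : ℝ) (q 0) with hH
  have hH1 : 1 ≤ H := le_max_of_le_right (by exact_mod_cast hq 0)
  have hpos : 0 < ε / 2 * r 0 * Real.log H := by linarith
  have hlogH : 0 < Real.log H := by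
    by_contra hcon
    push Not at hcon
    have : ε / 2 * r 0 * Real.log H ≤ 0 := mul_nonpos_of_nonneg_of_nonpos (by positivity) hcon
    linarith
  have h2 : (t : ℝ) * Real.log H ≤ Real.log (l1 P) := by
    rw [← Real.log_pow]
    exact Real.log_le_log (by positivity) ht'
  have h3 : (t : ℝ) < ε / 2 * r 0 := by
    by_contra hcon
    push Not at hcon
    have := mul_le_mul_of_nonneg_right hcon hlogH.le
    linarith
  refine ⟨Finsupp.single 0 t, ?_, ?_⟩
  · have h4 : (fun h : Fin 1 => (p h : ℚ) / q h) = fun _ => (p 0 : ℚ) / q 0 := by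
      funext h
      rw [Subsingleton.elim h 0]
    rw [h4]
    exact ht
  · have h5 : ∑ h : Fin (0 + 1), ((Finsupp.single (0 : Fin (0 + 1)) t) h : ℝ) / r h =
        (t : ℝ) / r 0 := by
      simp
    rw [h5, div_lt_iff₀ (by linarith)]
    nlinarith

theorem num_aux (ε ε₁ ω : ℝ) (hε : 0 < ε) (hε1 : ε ≤ 1) (he : ε₁ = ε ^ 2 / 128)
    (hω : ω ≤ ε₁ / 2) : ε / 2 ≤ ε - ω ∧ ¬ ((ε - ω) ^ 2 / 8 ≤ ω + ε₁) := by
  have h1 : ε ^ 2 ≤ ε := by nlinarith
  have h13 : ω ≤ ε / 2 := by linarith
  have h14 : ε / 2 ≤ ε - ω := by linarith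
  have h15 : (ε / 2) ^ 2 ≤ (ε - ω) ^ 2 := by
    apply pow_le_pow_left₀ (by positivity) h14
  refine ⟨h14, fun h => ?_⟩
  have h16 : 0 < ε ^ 2 := by positivity
  have h17 : (ε / 2) ^ 2 = ε ^ 2 / 4 := by ring
  rw [h17] at h15
  linarith

theorem roth_succ (m : ℕ) (ε ε₁ ω₁ C₁ : ℝ) (hε : 0 < ε) (hε1 : ε ≤ 1) (he : ε₁ = ε ^ 2 / 128)
    (hω₁ : 0 < ω₁) (hω₁1 : ω₁ ≤ 1) (hC₁ : 0 < C₁) (ih : RothStmt m ε₁ ω₁ C₁) :
    RothStmt (m + 1) ε (min ω₁ (ε₁ / 2)) (C₁ + (m + 3) * Real.log 2) := by
  classical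
  intro r D p q P hr hD hchain hq hpq hP hdeg hlog
  set ω := min ω₁ (ε₁ / 2) with hω
  have hε₁ : 0 < ε₁ := by rw [he]; positivity
  have hω0 : 0 < ω := lt_min hω₁ (by positivity)
  have hωle1 : ω ≤ ω₁ := min_le_left _ _
  have hωle2 : ω ≤ ε₁ / 2 := min_le_right _ _
  have hω1 : ω ≤ 1 := hωle1.trans hω₁1
  have hlog2 : 0 < Real.log 2 := Real.log_pos one_lt_two
  have hr1 : ∀ h, (1 : ℝ) ≤ r h := fun h => by exact_mod_cast hr h
  have hD1 : 1 ≤ D := (hr1 0).trans (hD 0)
  have hl0 : 0 ≤ Real.log (l1 P) := Real.log_nonneg (one_le_l1 hP)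
  by_contra hcon
  push Not at hcon
  -- heights
  have hH1 : ∀ h, 1 ≤ max (|p h| : ℝ) (q h) := fun h =>
    le_max_of_le_right (by exact_mod_cast hq h)
  have hlogH : ∀ h, 0 < Real.log (max (|p h| : ℝ) (q h)) := by
    intro h
    by_contra hc
    push Not at hc
    have h1 : ω * r h * Real.log (max (|p h| : ℝ) (q h)) ≤ 0 :=
      mul_nonpos_of_nonneg_of_nonpos (by positivity) hc
    have h2 := hlog h
    have h3 : 0 < (C₁ + (m + 3) * Real.log 2) * D := by positivity
    linarith
  -- monotonicity of the degrees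
  have hmono : ∀ j : ℕ, ∀ hj : j < m + 1, (r 0 : ℝ) ≤ ω * r ⟨j + 1, by omega⟩ := by
    intro j
    induction j with
    | zero =>
      intro hj
      exact hchain ⟨0, hj⟩
    | succ j ihj =>
      intro hj
      have h1 := ihj (by omega)
      have h2 := hchain ⟨j + 1, hj⟩
      have h3 : (r ⟨j + 1, by omega⟩ : ℝ) ≤ ω * r ⟨j + 1 + 1, by omega⟩ := h2
      have h4 : ω * (r ⟨j + 1, by omega⟩ : ℝ) ≤ r ⟨j + 1, by omega⟩ := by
        have : (0 : ℝ) ≤ r ⟨j + 1, by omega⟩ := Nat.cast_nonneg _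
        nlinarith
      linarith
  have hmono' : ∀ h : Fin (m + 1), (r 0 : ℝ) ≤ ω * r h.succ := fun h => hmono h.1 h.2
  -- decomposition
  set PQ : MvPolynomial (Fin (m + 1 + 1)) ℚ := map (Int.castRingHom ℚ) P with hPQ
  have hinjc : Function.Injective (Int.castRingHom ℚ) := Int.cast_injective
  have hPQ0 : PQ ≠ 0 := by
    intro h0
    apply hP
    apply map_injective _ hinjc
    rw [map_zero]
    exact h0
  have hdegQ : PQ.degreeOf 0 ≤ r 0 := by
    rw [degreeOf_le_iff]
    intro α hα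
    have h1 : α ∈ P.support := by
      rw [mem_support_iff] at hα ⊢
      intro h2
      apply hα
      rw [hPQ, coeff_map, h2, map_zero]
    exact (monomial_le_degreeOf 0 h1).trans (hdeg 0)
  obtain ⟨k, ψ, φ, hk1, hkr, hψ, hφ, hdec⟩ := exists_decomp PQ hPQ0 (r 0) hdegQ
  obtain ⟨β, hβk, hβ⟩ := exists_wronskian φ hφ
  obtain ⟨b, hbk, hb⟩ := exists_wronskian ψ hψ
  set V := (Matrix.of fun i j => hd (β i) (φ j)).det with hV
  set U := (Matrix.of fun i j => hd (b i) (ψ j)).det with hU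
  have hbdeg : ∀ i, (b i).degree = b i 0 := by
    intro i
    rw [Finsupp.degree_eq_sum]
    simp
  have hsing : ∀ a : Fin 1 →₀ ℕ, Finsupp.single 0 (a 0) = a := by
    intro a
    apply Finsupp.ext
    intro j
    rw [Subsingleton.elim j 0]
    simp
  have hbinj : Function.Injective fun i => b i 0 := by
    intro i j hij
    by_contra hne
    apply hb
    refine Matrix.det_zero_of_row_eq hne ?_
    have h1 : b i = b j := by rw [← hsing (b i), ← hsing (b j)]; simp only at hij; rw [hij]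
    funext l
    show hd (b i) (ψ l) = hd (b j) (ψ l)
    rw [h1]
  -- the matrix of derivatives
  let E : Matrix (Fin k) (Fin k) (MvPolynomial (Fin (m + 1 + 1)) ℤ) :=
    Matrix.of fun i j => hd (Finsupp.cons (b j 0) (β i)) P
  set W := E.det with hW
  have hWQ : map (Int.castRingHom ℚ) W = emb0 U * emb1 V := by
    have h1 : map (Int.castRingHom ℚ) W =
        ((map (Int.castRingHom ℚ)).mapMatrix E).det := RingHom.map_det _ _
    have h2 : (map (Int.castRingHom ℚ)).mapMatrix E =
        (Matrix.of fun i s => (emb1 (hd (β i) (φ s)) : MvPolynomial (Fin (m + 1 + 1)) ℚ)) *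
          (Matrix.of fun s j => (emb0 (hd (b j) (ψ s)) : MvPolynomial (Fin (m + 1 + 1)) ℚ)) := by
      ext1 i j
      rw [Matrix.mul_apply, RingHom.mapMatrix_apply, Matrix.map_apply]
      show map (Int.castRingHom ℚ) (hd (Finsupp.cons (b j 0) (β i)) P) = _
      rw [map_hd, ← hPQ, hdec, map_sum]
      refine Finset.sum_congr rfl fun s _ => ?_
      rw [hd_emb, Finsupp.cons_zero, Finsupp.tail_cons, hsing]
      simp only [Matrix.of_apply]
      ring
    rw [h1, h2, Matrix.det_mul, mul_comm]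
    congr 1
    · have h3 : (Matrix.of fun s j => (emb0 (hd (b j) (ψ s)) :
          MvPolynomial (Fin (m + 1 + 1)) ℚ)) =
          ((emb0 (m := m + 1) (R := ℚ)).toRingHom.mapMatrix
            (Matrix.of fun i j => hd (b i) (ψ j))).transpose := by
        ext1 i j
        rfl
      rw [h3, Matrix.det_transpose, ← RingHom.map_det]
      rfl
    · have h3 : (Matrix.of fun i s => (emb1 (hd (β i) (φ s)) :
          MvPolynomial (Fin (m + 1 + 1)) ℚ)) =
          ((emb1 (m := m + 1) (R := ℚ)).toRingHom.mapMatrix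
            (Matrix.of fun i j => hd (β i) (φ j))) := by
        ext1 i j
        rfl
      rw [h3, ← RingHom.map_det]
      rfl
  obtain ⟨u, v, hu0, hv0, hWuv⟩ := exists_factor W U V hb hβ hWQ
  -- the size of W
  have hl1P : 1 ≤ l1 P := one_le_l1 hP
  have hk0 : (0 : ℝ) < k := by exact_mod_cast hk1
  have hl1W : Real.log (l1 W) ≤ k * (Real.log (l1 P) + (m + 3) * Real.log 2 * D) := by
    have hB : ∀ i j, l1 (E i j) ≤ 2 ^ (∑ h, r h) * l1 P := fun i j => l1_hd_le _ _ _ hdeg
    have h1 := l1_det_le E _ hB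
    have hW0 : W ≠ 0 := by
      intro h0
      rw [h0, map_zero] at hWQ
      have : emb0 U * emb1 V ≠ (0 : MvPolynomial (Fin (m + 1 + 1)) ℚ) := by
        apply mul_ne_zero
        · rw [emb0]
          intro h
          exact hb ((map_eq_zero_iff _ (rename_injective _ (fun i j _ => Subsingleton.elim i j))).mp h)
        · rw [emb1]
          intro h
          exact hβ ((map_eq_zero_iff _ (rename_injective _ (Fin.succ_injective _))).mp h)
      exact this hWQ.symm
    have h2 : Real.log (l1 W) ≤ Real.log ((k.factorial : ℝ) * (2 ^ (∑ h, r h) * l1 P) ^ k) :=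
      Real.log_le_log (by linarith [one_le_l1 hW0]) h1
    refine h2.trans ?_
    have hfac : (0 : ℝ) < k.factorial := by exact_mod_cast Nat.factorial_pos k
    rw [Real.log_mul hfac.ne' (by positivity), Real.log_pow, Real.log_mul (by positivity)
      (by positivity), Real.log_pow]
    have h3 : Real.log (k.factorial : ℝ) ≤ k * (D * Real.log 2) := by
      have h4 : (k.factorial : ℝ) ≤ (k : ℝ) ^ k := by exact_mod_cast Nat.factorial_le_pow k
      have h5 : Real.log (k.factorial : ℝ) ≤ k * Real.log k := by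
        rw [← Real.log_pow]
        exact Real.log_le_log hfac h4
      have h6 : (k : ℝ) ≤ 2 ^ (r 0) := by
        have : k ≤ 2 ^ (r 0) := hkr.trans (Nat.succ_le_of_lt (Nat.lt_two_pow_self))
        exact_mod_cast this
      have h7 : Real.log k ≤ r 0 * Real.log 2 := by
        rw [← Real.log_pow]
        exact Real.log_le_log hk0 h6
      have h8 : (r 0 : ℝ) * Real.log 2 ≤ D * Real.log 2 :=
        mul_le_mul_of_nonneg_right (hD 0) hlog2.le
      refine h5.trans (mul_le_mul_of_nonneg_left (h7.trans h8) hk0.le)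
    have h9 : ((∑ h, r h : ℕ) : ℝ) ≤ (m + 2) * D := by
      push_cast
      refine (Finset.sum_le_sum fun h _ => hD h).trans ?_
      rw [Finset.sum_const, Finset.card_univ, Fintype.card_fin, nsmul_eq_mul]
      push_cast
      linarith
    have h10 : (k : ℝ) * (((∑ h, r h : ℕ) : ℝ) * Real.log 2 + Real.log (l1 P)) ≤
        k * ((m + 2) * D * Real.log 2 + Real.log (l1 P)) := by
      apply mul_le_mul_of_nonneg_left _ hk0.le
      have := mul_le_mul_of_nonneg_right h9 hlog2.le
      linarith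
    calc Real.log (k.factorial : ℝ) + (k : ℝ) * (((∑ h, r h : ℕ) : ℝ) * Real.log 2 +
          Real.log (l1 P))
        ≤ k * (D * Real.log 2) + k * ((m + 2) * D * Real.log 2 + Real.log (l1 P)) :=
          add_le_add h3 h10
      _ = _ := by ring
  have hlogv : Real.log (l1 v) ≤ Real.log (l1 W) := by
    refine Real.log_le_log (by linarith [one_le_l1 hv0]) ?_
    rw [hWuv]
    exact l1_right_le u v hu0
  have hlogu : Real.log (l1 u) ≤ Real.log (l1 W) := by
    refine Real.log_le_log (by linarith [one_le_l1 hu0]) ?_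
    rw [hWuv]
    exact l1_left_le u v hv0
  -- the first factor
  obtain ⟨t, ht, ht'⟩ := base_case u hu0 (p 0) (q 0) (hq 0) (hpq 0)
  have htle : (t : ℝ) ≤ k * ω * r 0 := by
    have h1 : (t : ℝ) * Real.log (max (|p 0| : ℝ) (q 0)) ≤ Real.log (l1 u) := by
      rw [← Real.log_pow]
      exact Real.log_le_log (by have := hH1 0; positivity) ht'
    have h2 := hlog 0
    have h3 : (m + 3) * Real.log 2 * D ≤ (C₁ + (m + 3) * Real.log 2) * D := by
      have : 0 ≤ C₁ * D := by positivity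
      nlinarith
    have h4 : (t : ℝ) * Real.log (max (|p 0| : ℝ) (q 0)) ≤
        k * (ω * r 0 * Real.log (max (|p 0| : ℝ) (q 0))) := by
      refine (h1.trans (hlogu.trans hl1W)).trans (mul_le_mul_of_nonneg_left ?_ hk0.le)
      linarith
    by_contra hc
    push Not at hc
    have h5 := mul_lt_mul_of_pos_right hc (hlogH 0)
    nlinarith
  -- the second factor
  obtain ⟨α, hα, hα'⟩ := ih (fun h => k * r h.succ) (k * D) (fun h => p h.succ)
    (fun h => q h.succ) v (fun h => Nat.mul_pos hk1 (hr _))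
    (fun h => by push_cast; exact mul_le_mul_of_nonneg_left (hD _) hk0.le)
    (fun h => by
      push_cast
      have h1 := hchain h.succ
      have h2 : (r h.castSucc.succ : ℝ) ≤ ω * r h.succ.succ := h1
      have h3 : ω * (r h.succ.succ : ℝ) ≤ ω₁ * r h.succ.succ :=
        mul_le_mul_of_nonneg_right hωle1 (Nat.cast_nonneg _)
      calc (k : ℝ) * (r h.castSucc.succ : ℝ) ≤ k * (ω₁ * r h.succ.succ) :=
            mul_le_mul_of_nonneg_left (h2.trans h3) hk0.le
        _ = _ := by ring)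
    (fun h => hq _) (fun h => hpq _) hv0
    (fun h => by
      refine (degreeOf_right_le u v hu0 h).trans ?_
      rw [← hWuv]
      exact degreeOf_det_le E h.succ (r h.succ) fun i j => (degreeOf_hd_le _ _ _).trans (hdeg _))
    (fun h => by
      push_cast
      have h2 := hlog h.succ
      have h3 : Real.log (l1 v) + C₁ * (k * D) ≤
          k * (Real.log (l1 P) + (C₁ + (m + 3) * Real.log 2) * D) := by
        calc Real.log (l1 v) + C₁ * (k * D)
            ≤ k * (Real.log (l1 P) + (m + 3) * Real.log 2 * D) + C₁ * (k * D) := by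
              linarith [hlogv.trans hl1W]
          _ = _ := by ring
      have h4 := mul_le_mul_of_nonneg_left h2 hk0.le
      have h5 : (k : ℝ) * (ω * r h.succ * Real.log (max (|p h.succ| : ℝ) (q h.succ))) ≤
          ω₁ * (k * r h.succ) * Real.log (max (|p h.succ| : ℝ) (q h.succ)) := by
        have h6 : 0 ≤ (k : ℝ) * r h.succ * Real.log (max (|p h.succ| : ℝ) (q h.succ)) := by
          have := (hlogH h.succ).le
          positivity
        nlinarith [mul_le_mul_of_nonneg_right hωle1 h6]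
      exact h3.trans (h4.trans h5))
  -- the monomial of W
  have hmem : Finsupp.cons t α ∈ (shift (fun h => (p h : ℚ) / q h)
      (map (Int.castRingHom ℚ) W)).support := by
    rw [mem_support_iff, hWuv, map_mul]
    have h1 : map (Int.castRingHom ℚ) (emb0 u : MvPolynomial (Fin (m + 1 + 1)) ℤ) =
        emb0 (map (Int.castRingHom ℚ) u) := by
      rw [emb0, emb0, map_rename]
    have h2 : map (Int.castRingHom ℚ) (emb1 v : MvPolynomial (Fin (m + 1 + 1)) ℤ) =
        emb1 (map (Int.castRingHom ℚ) v) := by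
      rw [emb1, emb1, map_rename]
    rw [h1, h2, shift_emb, coeff_emb, Finsupp.cons_zero, Finsupp.tail_cons]
    exact mul_ne_zero ht hα
  -- the index of W
  let w : Fin (m + 1 + 1) → ℝ := fun h => 1 / r h
  have hw0 : ∀ h, 0 ≤ w h := fun h => by positivity
  have hPvan : VanGE w ε (shift (fun h => (p h : ℚ) / q h) PQ) := by
    intro i hi
    rw [mem_support_iff] at hi
    have h1 := hcon i hi
    refine h1.trans (le_of_eq ?_)
    refine Finset.sum_congr rfl fun h _ => ?_
    simp only [w]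
    ring
  have hEvan : ∀ i j, VanGE w (max (ε - ω - (b j 0 : ℝ) / r 0) 0)
      (shift (fun h => (p h : ℚ) / q h) (map (Int.castRingHom ℚ) (E i j))) := by
    intro i j
    have h1 : shift (fun h => (p h : ℚ) / q h) (map (Int.castRingHom ℚ) (E i j)) =
        hd (Finsupp.cons (b j 0) (β i)) (shift (fun h => (p h : ℚ) / q h) PQ) := by
      show shift _ (map (Int.castRingHom ℚ) (hd (Finsupp.cons (b j 0) (β i)) P)) = _
      rw [map_hd, hd_shift]
    rw [h1]
    rcases le_total (ε - ω - (b j 0 : ℝ) / r 0) 0 with hle | hle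
    · rw [max_eq_right hle]
      exact VanGE.nonneg hw0 _
    · rw [max_eq_left hle]
      refine (hPvan.hd (Finsupp.cons (b j 0) (β i))).mono ?_
      rw [Fin.sum_univ_succ]
      have h2 : ((Finsupp.cons (b j 0) (β i) : Fin (m + 1 + 1) →₀ ℕ) 0 : ℝ) * w 0 =
          (b j 0 : ℝ) / r 0 := by
        rw [Finsupp.cons_zero]
        simp only [w]
        ring
      have h3 : ∑ h : Fin (m + 1), ((Finsupp.cons (b j 0) (β i) :
          Fin (m + 1 + 1) →₀ ℕ) h.succ : ℝ) * w h.succ ≤ ω := by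
        have h4 : ∀ h : Fin (m + 1), ((Finsupp.cons (b j 0) (β i) :
            Fin (m + 1 + 1) →₀ ℕ) h.succ : ℝ) * w h.succ ≤ (β i h : ℝ) * (ω / r 0) := by
          intro h
          rw [Finsupp.cons_succ]
          refine mul_le_mul_of_nonneg_left ?_ (Nat.cast_nonneg _)
          simp only [w]
          rw [div_le_div_iff₀ (by linarith [hr1 h.succ]) (by linarith [hr1 0]), one_mul]
          exact hmono' h
        refine (Finset.sum_le_sum fun h _ => h4 h).trans ?_
        rw [← Finset.sum_mul]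
        have h5 : ∑ h, (β i h : ℝ) ≤ r 0 := by
          have h6 := hβk i
          rw [Finsupp.degree_eq_sum] at h6
          have h7 : ∑ h, β i h ≤ r 0 := by omega
          exact_mod_cast h7
        have h8 : (0 : ℝ) < r 0 := by linarith [hr1 0]
        calc (∑ h, (β i h : ℝ)) * (ω / r 0) ≤ r 0 * (ω / r 0) :=
              mul_le_mul_of_nonneg_right h5 (by positivity)
          _ = ω := by field_simp
      linarith
  have hWvan : VanGE w (∑ j, max (ε - ω - (b j 0 : ℝ) / r 0) 0)
      (shift (fun h => (p h : ℚ) / q h) (map (Int.castRingHom ℚ) W)) := by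
    have h1 : shift (fun h => (p h : ℚ) / q h) (map (Int.castRingHom ℚ) W) =
        (((shift (fun h => (p h : ℚ) / q h)).toRingHom.comp
          (map (Int.castRingHom ℚ))).mapMatrix E).det := by
      rw [← RingHom.map_det]
      rfl
    rw [h1]
    exact VanGE.det fun i j => hEvan i j
  have hfin := hWvan _ hmem
  rw [sum_injective (fun j => b j 0) (fun i => by rw [← hbdeg]; exact hbk i) hbinj
    (fun x => max (ε - ω - (x : ℝ) / r 0) 0)] at hfin
  have hnum := num_aux ε ε₁ ω hε hε1 he hωle2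
  have hlow := sum_max_ge k (r 0) hk1 hkr (hr 0) (ε - ω) (by linarith [hnum.1]) (by linarith)
  have hup : ∑ h, ((Finsupp.cons t α : Fin (m + 1 + 1) →₀ ℕ) h : ℝ) * w h ≤
      k * ω + k * ε₁ := by
    rw [Fin.sum_univ_succ]
    have h1 : ((Finsupp.cons t α : Fin (m + 1 + 1) →₀ ℕ) 0 : ℝ) * w 0 ≤ k * ω := by
      rw [Finsupp.cons_zero]
      simp only [w]
      rw [mul_one_div, div_le_iff₀ (by linarith [hr1 0])]
      exact htle
    have h2 : ∑ h : Fin (m + 1), ((Finsupp.cons t α : Fin (m + 1 + 1) →₀ ℕ) h.succ : ℝ) *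
        w h.succ = k * ∑ h, (α h : ℝ) / ((k * r h.succ : ℕ) : ℝ) := by
      rw [Finset.mul_sum]
      refine Finset.sum_congr rfl fun h _ => ?_
      rw [Finsupp.cons_succ]
      simp only [w]
      push_cast
      have : (0 : ℝ) < r h.succ := by linarith [hr1 h.succ]
      field_simp
    rw [h2]
    have h3 := mul_le_mul_of_nonneg_left hα'.le hk0.le
    linarith
  have h10 : (k : ℝ) * (ε - ω) ^ 2 / 8 ≤ k * ω + k * ε₁ := hlow.trans (hfin.trans hup)
  have h11 : (ε - ω) ^ 2 / 8 ≤ ω + ε₁ := by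
    have h12 : (k : ℝ) * ((ε - ω) ^ 2 / 8) ≤ k * (ω + ε₁) := by
      calc (k : ℝ) * ((ε - ω) ^ 2 / 8) = (k : ℝ) * (ε - ω) ^ 2 / 8 := by ring
        _ ≤ k * ω + k * ε₁ := h10
        _ = _ := by ring
    exact le_of_mul_le_mul_left h12 hk0
  exact hnum.2 h11

theorem exists_roth (m : ℕ) : ∀ ε : ℝ, 0 < ε → ε ≤ 1 → ∃ ω C : ℝ, 0 < ω ∧ ω ≤ 1 ∧ 0 < C ∧
    RothStmt m ε ω C := by
  induction m with
  | zero => exact fun ε h0 h1 => ⟨ε / 2, 1, by positivity, by linarith, one_pos, roth_zero ε h0⟩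
  | succ m ih =>
    intro ε h0 h1
    have h2 : 0 < ε ^ 2 / 128 := by positivity
    obtain ⟨ω₁, C₁, hω, hω1, hC, h⟩ := ih (ε ^ 2 / 128) h2 (by nlinarith)
    have hlog2 : 0 < Real.log 2 := Real.log_pos one_lt_two
    exact ⟨_, _, lt_min hω (by positivity), (min_le_left _ _).trans hω1, by positivity,
      roth_succ m ε _ ω₁ C₁ h0 h1 rfl hω hω1 hC h⟩

end Pool.Agent.Helper5.Roth
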