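import Pool.Agent.Helper5.Roth.Norm

/-!
# One variable
-/

set_option autoImplicit false
set_option linter.unusedSectionVars false

namespace Pool.Agent.Helper5.Roth

open MvPolynomial

section uni

variable {R : Type*} [CommRing R]

/-- a polynomial in one variable as an ordinary polynomial -/
noncomputable def uni : MvPolynomial (Fin 1) R →ₐ[R] Polynomial R :=
  aeval fun _ => Polynomial.X

theorem coeff_uni (P : MvPolynomial (Fin 1) R) (i : ℕ) :
    (uni P).coeff i = coeff (Finsupp.single 0 i) P := by
  classical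
  induction P using MvPolynomial.induction_on' with
  | add P Q h h' => rw [map_add, Polynomial.coeff_add, h, h', coeff_add]
  | monomial a c =>
    have h0 : a = Finsupp.single 0 (a 0) := by
      apply Finsupp.ext
      intro j
      rw [Subsingleton.elim j 0]
      simp
    rw [uni, aeval_monomial, coeff_monomial, h0, Finsupp.prod_single_index (by simp),
      Polynomial.algebraMap_eq, Polynomial.coeff_C_mul, Polynomial.coeff_X_pow]
    by_cases h : i = a 0
    · subst h
      simp
    · rw [if_neg, if_neg, mul_zero]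
      · intro h1
        have := Finsupp.single_injective 0 h1
        exact h this.symm
      · simpa using h

theorem uni_shift (ξ : R) (P : MvPolynomial (Fin 1) R) :
    uni (shift (fun _ => ξ) P) = Polynomial.taylor ξ (uni P) := by
  have h : (uni (R := R)).comp (shift fun _ => ξ) =
      (Polynomial.taylorAlgHom ξ).comp (uni (R := R)) := by
    apply MvPolynomial.algHom_ext
    intro i
    simp [shift, uni]
  exact congrArg (fun g : MvPolynomial (Fin 1) R →ₐ[R] Polynomial R => g P) h

theorem uni_map {S : Type*} [CommRing S] (f : R →+* S) (P : MvPolynomial (Fin 1) R) :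
    uni (map f P) = (uni P).map f := by
  ext i
  rw [coeff_uni, coeff_map, Polynomial.coeff_map, coeff_uni]

end uni

theorem isPrimitive_lin {p q : ℤ} (h : IsCoprime p q) :
    (Polynomial.C q * Polynomial.X - Polynomial.C p : Polynomial ℤ).IsPrimitive := by
  intro r hr
  rw [Polynomial.C_dvd_iff_dvd_coeff] at hr
  have h0 := hr 0
  have h1 := hr 1
  have h2 : (Polynomial.C q * Polynomial.X - Polynomial.C p : Polynomial ℤ).coeff 0 = -p := by
    simp
  have h3 : (Polynomial.C q * Polynomial.X - Polynomial.C p : Polynomial ℤ).coeff 1 = q := by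
    rw [Polynomial.coeff_sub, Polynomial.coeff_C_mul, Polynomial.coeff_X_one,
      Polynomial.coeff_C_of_ne_zero one_ne_zero]
    ring
  rw [h2, dvd_neg] at h0
  rw [h3] at h1
  exact h.isUnit_of_dvd' h0 h1

theorem isPrimitive_pow {f : Polynomial ℤ} (h : f.IsPrimitive) (t : ℕ) : (f ^ t).IsPrimitive := by
  induction t with
  | zero => rw [pow_zero]; exact Polynomial.isPrimitive_one
  | succ t ih => rw [pow_succ]; exact ih.mul h

theorem base_case (u : MvPolynomial (Fin 1) ℤ) (hu : u ≠ 0) (p : ℤ) (q : ℕ) (hq : 1 ≤ q)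
    (hpq : IsCoprime p (q : ℤ)) : ∃ i : ℕ,
      coeff (Finsupp.single 0 i) (shift (fun _ => (p : ℚ) / q) (map (Int.castRingHom ℚ) u)) ≠ 0 ∧
      (max (|p| : ℝ) q) ^ i ≤ l1 u := by
  classical
  set ξ : ℚ := (p : ℚ) / q with hξ
  set f : Polynomial ℤ := uni u with hf
  have hf0 : f ≠ 0 := by
    intro h
    apply hu
    ext a
    have h0 : a = Finsupp.single 0 (a 0) := by
      apply Finsupp.ext
      intro j
      rw [Subsingleton.elim j 0]
      simp
    rw [h0, ← coeff_uni, ← hf, h]
    simp
  have hq0 : (q : ℚ) ≠ 0 := by positivity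
  set g : Polynomial ℚ := Polynomial.taylor ξ (f.map (Int.castRingHom ℚ)) with hg
  have hg0 : g ≠ 0 := by
    rw [hg, Ne, Polynomial.taylor_eq_zero]
    exact (Polynomial.map_ne_zero_iff (Int.cast_injective)).mpr hf0
  set t := g.natTrailingDegree with ht
  have hcoef : coeff (Finsupp.single 0 t) (shift (fun _ => ξ) (map (Int.castRingHom ℚ) u)) ≠ 0 := by
    rw [← coeff_uni, uni_shift, uni_map]
    exact Polynomial.trailingCoeff_nonzero_iff_nonzero.mpr hg0
  refine ⟨t, hcoef, ?_⟩
  -- divisibility over the rationals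
  have hdvd : (Polynomial.X : Polynomial ℚ) ^ t ∣ g := by
    rw [Polynomial.X_pow_dvd_iff]
    intro d hd
    exact Polynomial.coeff_eq_zero_of_lt_natTrailingDegree hd
  have hdvd2 : ((Polynomial.C (q : ℤ) * Polynomial.X - Polynomial.C p : Polynomial ℤ) ^ t).map
      (Int.castRingHom ℚ) ∣ f.map (Int.castRingHom ℚ) := by
    obtain ⟨w, hw⟩ := hdvd
    refine ⟨Polynomial.C ((q : ℚ)⁻¹ ^ t) * Polynomial.taylor (-ξ) w, ?_⟩
    have h1 : Polynomial.taylor (-ξ) g = f.map (Int.castRingHom ℚ) := by
      rw [hg, Polynomial.taylor_taylor]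
      simp
    rw [← h1, hw, Polynomial.taylor_mul, Polynomial.taylor_pow, Polynomial.taylor_X]
    have h2 : (Polynomial.C (q : ℤ) * Polynomial.X - Polynomial.C p : Polynomial ℤ).map
        (Int.castRingHom ℚ) = Polynomial.C (q : ℚ) * (Polynomial.X + Polynomial.C (-ξ)) := by
      rw [Polynomial.map_sub, Polynomial.map_mul, Polynomial.map_C, Polynomial.map_C,
        Polynomial.map_X, mul_add, ← Polynomial.C_mul]
      have h3 : (q : ℚ) * -ξ = -(p : ℚ) := by
        rw [hξ]
        field_simp
      rw [h3]
      simp [sub_eq_add_neg]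
    rw [Polynomial.map_pow, h2, mul_pow, ← Polynomial.C_pow]
    have h4 : (Polynomial.C ((q : ℚ) ^ t) : Polynomial ℚ) * Polynomial.C ((q : ℚ)⁻¹ ^ t) = 1 := by
      rw [← Polynomial.C_mul, ← mul_pow, mul_inv_cancel₀ hq0, one_pow, Polynomial.C_1]
    calc (Polynomial.X + Polynomial.C (-ξ)) ^ t * Polynomial.taylor (-ξ) w
        = (Polynomial.C ((q : ℚ) ^ t) * Polynomial.C ((q : ℚ)⁻¹ ^ t)) *
          ((Polynomial.X + Polynomial.C (-ξ)) ^ t * Polynomial.taylor (-ξ) w) := by
            rw [h4, one_mul]
      _ = _ := by ring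
  have hprim := isPrimitive_pow (isPrimitive_lin hpq) t
  have hdvd3 := (Polynomial.IsPrimitive.Int.dvd_iff_map_cast_dvd_map_cast _ f hprim).mpr hdvd2
  obtain ⟨w, hw⟩ := hdvd3
  have hw0 : w ≠ 0 := by
    rintro rfl
    rw [mul_zero] at hw
    exact hf0 hw
  have hq0' : (q : ℤ) ≠ 0 := by positivity
  have hcoeff_le : ∀ i, |((f.coeff i : ℤ) : ℝ)| ≤ l1 u := by
    intro i
    rw [hf, coeff_uni]
    exact abs_coeff_le_l1 u _
  have hlead : ((q : ℝ)) ^ t ≤ l1 u := by
    have h1 : f.leadingCoeff = (q : ℤ) ^ t * w.leadingCoeff := by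
      rw [hw, Polynomial.leadingCoeff_mul, Polynomial.leadingCoeff_pow]
      congr 2
      rw [sub_eq_add_neg, ← Polynomial.C_neg]
      exact Polynomial.leadingCoeff_linear hq0'
    have h2 := hcoeff_le f.natDegree
    have h3 : f.coeff f.natDegree = f.leadingCoeff := rfl
    rw [h3, h1] at h2
    have h4 : (1 : ℝ) ≤ |((w.leadingCoeff : ℤ) : ℝ)| := by
      exact_mod_cast Int.one_le_abs (Polynomial.leadingCoeff_ne_zero.mpr hw0)
    refine le_trans ?_ h2
    push_cast
    rw [abs_mul, abs_of_nonneg (by positivity : (0 : ℝ) ≤ (q : ℝ) ^ t)]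
    exact le_mul_of_one_le_right (by positivity) h4
  rcases eq_or_ne p 0 with hp | hp
  · subst hp
    have hq1 : (q : ℝ) = 1 := by
      have h1 : IsUnit (q : ℤ) := isCoprime_zero_left.mp hpq
      have h2 : q = 1 := by
        rcases Int.isUnit_iff.mp h1 with h | h
        · exact_mod_cast h
        · omega
      rw [h2]
      simp
    rw [hq1]
    simp only [Int.cast_zero, abs_zero]
    rw [max_eq_right (by norm_num), one_pow]
    exact one_le_l1 hu
  · have htrail : (|(p : ℝ)|) ^ t ≤ l1 u := by
      have hlin0 : (Polynomial.C (q : ℤ) * Polynomial.X - Polynomial.C p : Polynomial ℤ).coeff 0 =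
          -p := by simp
      have hlin : (Polynomial.C (q : ℤ) * Polynomial.X - Polynomial.C p :
          Polynomial ℤ).trailingCoeff = -p := by
        rw [Polynomial.trailingCoeff, Polynomial.natTrailingDegree_eq_zero.mpr (Or.inr ?_), hlin0]
        rw [hlin0]
        simpa using hp
      have hpow : ∀ s : ℕ, ((Polynomial.C (q : ℤ) * Polynomial.X - Polynomial.C p :
          Polynomial ℤ) ^ s).trailingCoeff = (-p) ^ s := by
        intro s
        induction s with
        | zero =>
          rw [pow_zero, pow_zero, ← Polynomial.C_1, Polynomial.trailingCoeff]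
          simp
        | succ s ih => rw [pow_succ, Polynomial.trailingCoeff_mul, ih, hlin, pow_succ]
      have h1 : f.trailingCoeff = (-p) ^ t * w.trailingCoeff := by
        rw [hw, Polynomial.trailingCoeff_mul, hpow]
      have h2 := hcoeff_le f.natTrailingDegree
      have h3 : f.coeff f.natTrailingDegree = f.trailingCoeff := rfl
      rw [h3, h1] at h2
      have h4 : (1 : ℝ) ≤ |((w.trailingCoeff : ℤ) : ℝ)| := by
        exact_mod_cast Int.one_le_abs (Polynomial.trailingCoeff_nonzero_iff_nonzero.mpr hw0)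
      refine le_trans ?_ h2
      push_cast
      rw [abs_mul, abs_pow, abs_neg]
      exact le_mul_of_one_le_right (by positivity) h4
    rcases le_total (|(p : ℝ)|) (q : ℝ) with h | h
    · rw [max_eq_right h]
      exact hlead
    · rw [max_eq_left h]
      exact htrail

end Pool.Agent.Helper5.Roth
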