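import Mathlib

/-!
# Hasse derivatives of polynomials in several variables, translations
-/

set_option autoImplicit false
set_option linter.unusedSectionVars false

namespace Pool.Agent.Helper5.Roth

open MvPolynomial

section hasse

variable {σ : Type*} [Fintype σ] {R : Type*} [CommRing R]

/-- the product of the binomial coefficients -/
def chv (α β : σ →₀ ℕ) : ℕ := ∏ h, (α h).choose (β h)

/-- `P(X + Y)` as a polynomial in `Y` with coefficients polynomials in `X` -/
noncomputable def tay : MvPolynomial σ R →ₐ[R] MvPolynomial σ (MvPolynomial σ R) :=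
  aeval fun h => C (X h) + X h

/-- the Hasse derivative of order `β` -/
noncomputable def hd (β : σ →₀ ℕ) : MvPolynomial σ R →+ MvPolynomial σ R where
  toFun P := coeff β (tay P)
  map_zero' := by simp
  map_add' P Q := by simp

theorem hd_apply (β : σ →₀ ℕ) (P : MvPolynomial σ R) : hd β P = coeff β (tay P) := rfl

theorem chv_eq_zero {α β : σ →₀ ℕ} (h : ¬ β ≤ α) : chv α β = 0 := by
  rw [Finsupp.le_def] at h
  push Not at h
  obtain ⟨i, hi⟩ := h
  exact Finset.prod_eq_zero (Finset.mem_univ i) (Nat.choose_eq_zero_of_lt hi)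

theorem hd_monomial (β α : σ →₀ ℕ) (c : R) :
    hd β (monomial α c) = monomial (α - β) (c * (chv α β : R)) := by
  classical
  rw [hd_apply, tay, aeval_monomial, Finsupp.prod_fintype _ _ (by simp)]
  have h1 : ∀ h : σ, (C (X h) + X h : MvPolynomial σ (MvPolynomial σ R)) ^ (α h) =
      ∑ b ∈ Finset.range (α h + 1), monomial (Finsupp.single h b)
        (X h ^ (α h - b) * ((α h).choose b : MvPolynomial σ R)) := by
    intro h
    rw [add_comm, add_pow]
    refine Finset.sum_congr rfl fun b _ => ?_
    rw [← C_pow, X_pow_eq_monomial, mul_assoc, ← map_natCast (C (σ := σ) (R := MvPolynomial σ R)),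
      ← C_mul, mul_comm, C_mul_monomial, mul_one]
  rw [Finset.prod_congr rfl fun h _ => h1 h, Finset.prod_univ_sum]
  have h2 : ∀ b : σ → ℕ, (∏ h, (monomial (Finsupp.single h (b h))
        (X h ^ (α h - b h) * ((α h).choose (b h) : MvPolynomial σ R)) :
          MvPolynomial σ (MvPolynomial σ R))) =
      monomial (Finsupp.equivFunOnFinite.symm b)
        (∏ h, (X h ^ (α h - b h) * ((α h).choose (b h) : MvPolynomial σ R))) := by
    intro b
    rw [← monomial_sum_prod]
    have h0 : ∑ h, Finsupp.single h (b h) = Finsupp.equivFunOnFinite.symm b := by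
      ext i
      rw [Finsupp.finsetSum_apply, Finset.sum_eq_single i]
      · simp
      · intro j _ hj
        rw [Finsupp.single_apply, if_neg hj]
      · intro h
        exact absurd (Finset.mem_univ i) h
    rw [h0]
  rw [Finset.sum_congr rfl fun b _ => h2 b, Finset.mul_sum, coeff_sum]
  have h3 : ∀ b : σ → ℕ, coeff β ((algebraMap R (MvPolynomial σ (MvPolynomial σ R))) c *
      monomial (Finsupp.equivFunOnFinite.symm b)
        (∏ h, (X h ^ (α h - b h) * ((α h).choose (b h) : MvPolynomial σ R)))) =
      if b = β then C c * ∏ h, (X h ^ (α h - b h) * ((α h).choose (b h) : MvPolynomial σ R))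
        else 0 := by
    intro b
    have h4 : (algebraMap R (MvPolynomial σ (MvPolynomial σ R))) c = C (C c) := rfl
    rw [h4, coeff_C_mul, coeff_monomial]
    by_cases hb : b = β
    · rw [if_pos hb, if_pos]
      rw [hb]
      simp
    · rw [if_neg hb, if_neg, mul_zero]
      intro h5
      apply hb
      rw [← h5]
      simp
  rw [Finset.sum_congr rfl fun b _ => h3 b, Finset.sum_ite_eq']
  by_cases hβ : β ≤ α
  · rw [if_pos]
    · rw [Finset.prod_mul_distrib]
      have h6 : (∏ h, (X h : MvPolynomial σ R) ^ (α h - β h)) = monomial (α - β) 1 := by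
        rw [monomial_eq, Finsupp.prod_fintype _ _ (by simp)]
        simp
      rw [h6, ← Nat.cast_prod, ← map_natCast (C (σ := σ) (R := R)), mul_comm (monomial _ _),
        ← mul_assoc, ← C_mul, C_mul_monomial, mul_one]
      rfl
    · rw [Fintype.mem_piFinset]
      intro i
      rw [Finset.mem_range, Nat.lt_succ_iff]
      exact hβ i
  · rw [if_neg, chv_eq_zero hβ]
    · simp
    · intro h7
      apply hβ
      rw [Fintype.mem_piFinset] at h7
      intro i
      have := h7 i
      rwa [Finset.mem_range, Nat.lt_succ_iff] at this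

theorem coeff_hd (β γ : σ →₀ ℕ) (P : MvPolynomial σ R) :
    coeff γ (hd β P) = (chv (γ + β) β : R) * coeff (γ + β) P := by
  classical
  induction P using MvPolynomial.induction_on' with
  | monomial α c =>
    rw [hd_monomial, coeff_monomial, coeff_monomial]
    by_cases h : α = γ + β
    · rw [if_pos h, if_pos, h, mul_comm]
      rw [h]
      simp
    · rw [if_neg h, mul_zero]
      split_ifs with h1
      · by_cases hβ : β ≤ α
        · exfalso
          apply h
          rw [← h1, tsub_add_cancel_of_le hβ]
        · rw [chv_eq_zero hβ]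
          simp
      · rfl
  | add P Q hP hQ => rw [map_add, coeff_add, coeff_add, hP, hQ, mul_add]

theorem hd_C_mul (β : σ →₀ ℕ) (c : R) (P : MvPolynomial σ R) : hd β (C c * P) = C c * hd β P := by
  ext γ
  rw [coeff_hd, coeff_C_mul, coeff_C_mul, coeff_hd]
  ring

theorem map_hd {S : Type*} [CommRing S] (f : R →+* S) (β : σ →₀ ℕ) (P : MvPolynomial σ R) :
    map f (hd β P) = hd β (map f P) := by
  ext γ
  rw [coeff_map, coeff_hd, coeff_hd, coeff_map, map_mul, map_natCast]

/-- translation -/
noncomputable def shift (ξ : σ → R) : MvPolynomial σ R →ₐ[R] MvPolynomial σ R :=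
  aeval fun h => X h + C (ξ h)

theorem tay_shift (ξ : σ → R) (P : MvPolynomial σ R) :
    tay (shift ξ P) = map (shift ξ : MvPolynomial σ R →ₐ[R] MvPolynomial σ R).toRingHom
      (tay P) := by
  have h : ((tay : MvPolynomial σ R →ₐ[R] _).comp (shift ξ)).toRingHom =
      (map (shift ξ : MvPolynomial σ R →ₐ[R] MvPolynomial σ R).toRingHom).comp
        (tay : MvPolynomial σ R →ₐ[R] _).toRingHom := by
    apply MvPolynomial.ringHom_ext
    · intro r
      simp [tay, shift]
    · intro i
      simp [tay, shift]
      ring
  exact congrArg (fun g : MvPolynomial σ R →+* MvPolynomial σ (MvPolynomial σ R) => g P) h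

theorem hd_shift (ξ : σ → R) (β : σ →₀ ℕ) (P : MvPolynomial σ R) :
    hd β (shift ξ P) = shift ξ (hd β P) := by
  rw [hd_apply, tay_shift, coeff_map, hd_apply]
  rfl

theorem shift_injective (ξ : σ → R) : Function.Injective (shift (R := R) ξ) := by
  have h : ∀ P : MvPolynomial σ R, shift (fun h => - ξ h) (shift ξ P) = P := by
    intro P
    have h1 : (shift (R := R) (fun h => - ξ h)).comp (shift ξ) = AlgHom.id R _ := by
      apply MvPolynomial.algHom_ext
      intro i
      simp [shift]
    exact congrArg (fun g : MvPolynomial σ R →ₐ[R] MvPolynomial σ R => g P) h1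
  intro P Q hPQ
  rw [← h P, ← h Q, hPQ]

end hasse

end Pool.Agent.Helper5.Roth
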