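import Pool.Agent.Helper5.Roth.Base

/-!
# The index
-/

set_option autoImplicit false
set_option linter.unusedSectionVars false

namespace Pool.Agent.Helper5.Roth

open MvPolynomial

section van

variable {σ : Type*} [Fintype σ]

/-- all monomials have weight at least `θ` -/
def VanGE (w : σ → ℝ) (θ : ℝ) (R : MvPolynomial σ ℚ) : Prop :=
  ∀ α ∈ R.support, θ ≤ ∑ h, (α h : ℝ) * w h

theorem VanGE.zero (w : σ → ℝ) (θ : ℝ) : VanGE w θ 0 := by
  intro α hα
  simp at hα

theorem VanGE.mono {w : σ → ℝ} {θ θ' : ℝ} {R : MvPolynomial σ ℚ} (h : VanGE w θ R) (hθ : θ' ≤ θ) :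
    VanGE w θ' R := fun α hα => hθ.trans (h α hα)

theorem VanGE.nonneg {w : σ → ℝ} (hw : ∀ h, 0 ≤ w h) (R : MvPolynomial σ ℚ) : VanGE w 0 R :=
  fun _ _ => Finset.sum_nonneg fun h _ => mul_nonneg (Nat.cast_nonneg _) (hw h)

theorem VanGE.add {w : σ → ℝ} {θ : ℝ} {R S : MvPolynomial σ ℚ} (hR : VanGE w θ R)
    (hS : VanGE w θ S) : VanGE w θ (R + S) := by
  classical
  intro α hα
  rcases Finset.mem_union.mp (support_add hα) with h | h
  · exact hR α h
  · exact hS α h

theorem VanGE.neg {w : σ → ℝ} {θ : ℝ} {R : MvPolynomial σ ℚ} (hR : VanGE w θ R) :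
    VanGE w θ (-R) := by
  intro α hα
  rw [support_neg] at hα
  exact hR α hα

theorem VanGE.sum {ι : Type*} (s : Finset ι) {w : σ → ℝ} {θ : ℝ} {f : ι → MvPolynomial σ ℚ}
    (h : ∀ i ∈ s, VanGE w θ (f i)) : VanGE w θ (∑ i ∈ s, f i) := by
  classical
  induction s using Finset.induction_on with
  | empty => exact VanGE.zero w θ
  | insert i s hi ih =>
    rw [Finset.sum_insert hi]
    exact (h i (Finset.mem_insert_self _ _)).add
      (ih fun j hj => h j (Finset.mem_insert_of_mem hj))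

theorem VanGE.mul {w : σ → ℝ} {θ θ' : ℝ} {R S : MvPolynomial σ ℚ} (hR : VanGE w θ R)
    (hS : VanGE w θ' S) : VanGE w (θ + θ') (R * S) := by
  classical
  intro α hα
  obtain ⟨β, hβ, γ, hγ, rfl⟩ := Finset.mem_add.mp (support_mul R S hα)
  have h1 := hR β hβ
  have h2 := hS γ hγ
  have h3 : ∑ h, ((β + γ : σ →₀ ℕ) h : ℝ) * w h =
      ∑ h, (β h : ℝ) * w h + ∑ h, (γ h : ℝ) * w h := by
    rw [← Finset.sum_add_distrib]
    refine Finset.sum_congr rfl fun h _ => ?_
    rw [Finsupp.add_apply]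
    push_cast
    ring
  rw [h3]
  linarith

theorem VanGE.prod {ι : Type*} (s : Finset ι) {w : σ → ℝ} {θ : ι → ℝ}
    {f : ι → MvPolynomial σ ℚ} (hf : ∀ i ∈ s, VanGE w (θ i) (f i)) :
    VanGE w (∑ i ∈ s, θ i) (∏ i ∈ s, f i) := by
  classical
  induction s using Finset.induction_on with
  | empty =>
    rw [Finset.sum_empty, Finset.prod_empty]
    intro α hα
    rw [← C_1, C_apply, support_monomial, if_neg one_ne_zero, Finset.mem_singleton] at hα
    rw [hα]
    simp
  | insert i s hi ih =>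
    rw [Finset.sum_insert hi, Finset.prod_insert hi]
    exact (hf i (Finset.mem_insert_self _ _)).mul
      (ih fun j hj => hf j (Finset.mem_insert_of_mem hj))

theorem VanGE.det {k : ℕ} {w : σ → ℝ} {θ : Fin k → ℝ}
    {E : Matrix (Fin k) (Fin k) (MvPolynomial σ ℚ)} (hE : ∀ i j, VanGE w (θ j) (E i j)) :
    VanGE w (∑ j, θ j) E.det := by
  classical
  rw [Matrix.det_apply]
  refine VanGE.sum _ fun τ _ => ?_
  have h1 : VanGE w (∑ j, θ j) (∏ j, E (τ j) j) := VanGE.prod _ fun j _ => hE _ _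
  rcases Int.units_eq_one_or (Equiv.Perm.sign τ) with h | h
  · rw [h, one_smul]
    exact h1
  · rw [h, Units.neg_smul, one_smul]
    exact h1.neg

theorem VanGE.hd {w : σ → ℝ} {θ : ℝ} {R : MvPolynomial σ ℚ} (hR : VanGE w θ R) (β : σ →₀ ℕ) :
    VanGE w (θ - ∑ h, (β h : ℝ) * w h) (hd β R) := by
  intro α hα
  rw [mem_support_iff, coeff_hd] at hα
  have h1 : α + β ∈ R.support := by
    rw [mem_support_iff]
    exact right_ne_zero_of_mul hα
  have h2 := hR _ h1
  have h3 : ∑ h, ((α + β : σ →₀ ℕ) h : ℝ) * w h =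
      ∑ h, (α h : ℝ) * w h + ∑ h, (β h : ℝ) * w h := by
    rw [← Finset.sum_add_distrib]
    refine Finset.sum_congr rfl fun h _ => ?_
    rw [Finsupp.add_apply]
    push_cast
    ring
  rw [h3] at h2
  linarith

end van

/-! ### degrees -/

section deg

variable {σ : Type*} [Fintype σ]

theorem degreeOf_hd_le (β : σ →₀ ℕ) (P : MvPolynomial σ ℤ) (h : σ) :
    (hd β P).degreeOf h ≤ P.degreeOf h := by
  rw [degreeOf_le_iff]
  intro α hα
  rw [mem_support_iff, coeff_hd] at hα
  have h1 : α + β ∈ P.support := by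
    rw [mem_support_iff]
    exact right_ne_zero_of_mul hα
  have h2 := monomial_le_degreeOf h h1
  rw [Finsupp.add_apply] at h2
  omega

theorem degreeOf_det_le {k : ℕ} (E : Matrix (Fin k) (Fin k) (MvPolynomial σ ℤ)) (h : σ) (d : ℕ)
    (hE : ∀ i j, (E i j).degreeOf h ≤ d) : E.det.degreeOf h ≤ k * d := by
  classical
  rw [Matrix.det_apply, degreeOf_le_iff]
  intro α hα
  have h1 := Finset.mem_biUnion.mp (support_sum hα)
  obtain ⟨τ, -, hτ⟩ := h1
  have h2 : α ∈ (∏ i, E (τ i) i).support := by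
    rcases Int.units_eq_one_or (Equiv.Perm.sign τ) with h | h
    · rwa [h, one_smul] at hτ
    · rwa [h, Units.neg_smul, one_smul, support_neg] at hτ
  have h3 := monomial_le_degreeOf h h2
  have h4 := degreeOf_prod_le h Finset.univ (fun i => E (τ i) i)
  have h5 : ∑ i, (E (τ i) i).degreeOf h ≤ k * d := by
    refine (Finset.sum_le_sum fun i _ => hE _ _).trans ?_
    simp
  omega

end deg

/-! ### integral factors -/

section factor

variable {m : ℕ}

theorem exists_factor (W : MvPolynomial (Fin (m + 1)) ℤ) (U : MvPolynomial (Fin 1) ℚ)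
    (V : MvPolynomial (Fin m) ℚ) (hU : U ≠ 0) (hV : V ≠ 0)
    (hW : map (Int.castRingHom ℚ) W = emb0 U * emb1 V) :
    ∃ (u : MvPolynomial (Fin 1) ℤ) (v : MvPolynomial (Fin m) ℤ), u ≠ 0 ∧ v ≠ 0 ∧
      W = emb0 u * emb1 v := by
  classical
  have hcoef : ∀ ε : Fin (m + 1) →₀ ℕ, ((coeff ε W : ℤ) : ℚ) =
      coeff (Finsupp.single 0 (ε 0)) U * coeff ε.tail V := by
    intro ε
    rw [← coeff_emb, ← hW, coeff_map]
    rfl
  obtain ⟨a, ha⟩ := support_nonempty.mpr hU
  rw [mem_support_iff] at ha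
  have ha' : a = Finsupp.single 0 (a 0) := by
    apply Finsupp.ext
    intro j
    rw [Subsingleton.elim j 0]
    simp
  obtain ⟨g, hg1, hg2⟩ := Finset.extract_gcd (s := V.support)
    (fun α => coeff (Finsupp.cons (a 0) α) W) (support_nonempty.mpr hV)
  set G : ℤ := V.support.gcd (fun α => coeff (Finsupp.cons (a 0) α) W) with hG
  have hG0 : (G : ℚ) ≠ 0 := by
    obtain ⟨α, hα⟩ := support_nonempty.mpr hV
    have h1 := hg1 α hα
    intro h0
    have h0' : G = 0 := by exact_mod_cast h0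
    rw [h0', zero_mul] at h1
    have h2 := hcoef (Finsupp.cons (a 0) α)
    rw [h1, Finsupp.cons_zero, Finsupp.tail_cons, ← ha'] at h2
    rw [mem_support_iff] at hα
    have := mul_ne_zero ha hα
    exact this (by rw [← h2]; simp)
  let v : MvPolynomial (Fin m) ℤ := ∑ α ∈ V.support, monomial α (g α)
  have hv : ∀ α, coeff α v = if α ∈ V.support then g α else 0 := by
    intro α
    simp only [v, coeff_sum, coeff_monomial]
    rw [Finset.sum_ite_eq']
  have hVv : ∀ α, coeff a U * coeff α V = (G : ℚ) * ((coeff α v : ℤ) : ℚ) := by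
    intro α
    have h2 := hcoef (Finsupp.cons (a 0) α)
    rw [Finsupp.cons_zero, Finsupp.tail_cons, ← ha'] at h2
    rw [← h2, hv]
    split_ifs with h
    · rw [hg1 α h]
      push_cast
      ring
    · rw [notMem_support_iff] at h
      rw [h2, h]
      simp
  -- the coefficients of the other factor
  let c : (Fin 1 →₀ ℕ) → ℚ := fun x => coeff x U * G / coeff a U
  have hc : ∀ (x : Fin 1 →₀ ℕ) α, c x * ((coeff α v : ℤ) : ℚ) = coeff x U * coeff α V := by
    intro x α
    have h1 := hVv α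
    simp only [c]
    rw [div_mul_eq_mul_div, mul_assoc, ← h1]
    field_simp
  have hcint : ∀ x : Fin 1 →₀ ℕ, ∃ z : ℤ, c x = z := by
    intro x
    have hx : x = Finsupp.single 0 (x 0) := by
      apply Finsupp.ext
      intro j
      rw [Subsingleton.elim j 0]
      simp
    have h1 : ∀ α ∈ V.support, ((c x).den : ℤ) ∣ g α := by
      intro α hα
      have h2 := hc x α
      have h3 := hcoef (Finsupp.cons (x 0) α)
      rw [Finsupp.cons_zero, Finsupp.tail_cons, ← hx, ← h2, hv, if_pos hα] at h3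
      -- h3 : W = c x * g α
      have h4 : (c x).num * g α = coeff (Finsupp.cons (x 0) α) W * (c x).den := by
        have h5 : ((c x).num : ℚ) = c x * (c x).den := (Rat.mul_den_eq_num (c x)).symm
        have h6 : (((c x).num * g α : ℤ) : ℚ) =
            ((coeff (Finsupp.cons (x 0) α) W * (c x).den : ℤ) : ℚ) := by
          push_cast
          rw [h3, h5]
          ring
        exact_mod_cast h6
      have h7 : ((c x).den : ℤ) ∣ (c x).num * g α := ⟨_, by rw [h4]; ring⟩
      have h8 : IsCoprime ((c x).den : ℤ) (c x).num := by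
        have := (c x).reduced
        rw [Int.isCoprime_iff_gcd_eq_one, Int.gcd_comm]
        simpa [Int.gcd, Nat.Coprime] using this
      exact h8.dvd_of_dvd_mul_left h7
    have h9 : ((c x).den : ℤ) ∣ 1 := by
      rw [← hg2]
      exact Finset.dvd_gcd h1
    have h10 : (c x).den = 1 := by
      have := Int.eq_one_of_dvd_one (by positivity) h9
      exact_mod_cast this
    refine ⟨(c x).num, ?_⟩
    conv_lhs => rw [← Rat.num_div_den (c x), h10]
    simp
  choose z hz using hcint
  let u : MvPolynomial (Fin 1) ℤ := ∑ x ∈ U.support, monomial x (z x)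
  have hu : ∀ x, coeff x u = if x ∈ U.support then z x else 0 := by
    intro x
    simp only [u, coeff_sum, coeff_monomial]
    rw [Finset.sum_ite_eq']
  have hWuv : W = emb0 u * emb1 v := by
    ext ε
    rw [coeff_emb, hu]
    split_ifs with h
    · have h1 := hcoef ε
      rw [← hc, hz] at h1
      exact_mod_cast h1
    · rw [notMem_support_iff] at h
      have h1 := hcoef ε
      rw [h, zero_mul] at h1
      rw [zero_mul]
      exact_mod_cast h1
  have hW0 : W ≠ 0 := by
    intro h0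
    rw [h0, map_zero] at hW
    obtain ⟨α, hα⟩ := support_nonempty.mpr hV
    have h1 := congrArg (coeff (Finsupp.cons (a 0) α)) hW
    rw [coeff_emb, coeff_zero, Finsupp.cons_zero, Finsupp.tail_cons, ← ha'] at h1
    rw [mem_support_iff] at hα
    exact mul_ne_zero ha hα h1.symm
  refine ⟨u, v, ?_, ?_, hWuv⟩
  · rintro h
    rw [h, map_zero, zero_mul] at hWuv
    exact hW0 hWuv
  · rintro h
    rw [h, map_zero, mul_zero] at hWuv
    exact hW0 hWuv

theorem l1_right_le (u : MvPolynomial (Fin 1) ℤ) (v : MvPolynomial (Fin m) ℤ) (hu : u ≠ 0) :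
    l1 v ≤ l1 (emb0 u * emb1 v) := by
  classical
  obtain ⟨a, ha⟩ := support_nonempty.mpr hu
  rw [mem_support_iff] at ha
  have ha' : a = Finsupp.single 0 (a 0) := by
    apply Finsupp.ext
    intro j
    rw [Subsingleton.elim j 0]
    simp
  have h1 : ∀ α, coeff (Finsupp.cons (a 0) α) (emb0 u * emb1 v) = coeff a u * coeff α v := by
    intro α
    rw [coeff_emb, Finsupp.cons_zero, Finsupp.tail_cons, ← ha']
  have h2 : (v.support.map ⟨Finsupp.cons (a 0), Finsupp.cons_right_injective _⟩) ⊆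
      (emb0 u * emb1 v : MvPolynomial (Fin (m + 1)) ℤ).support := by
    intro ε hε
    rw [Finset.mem_map] at hε
    obtain ⟨α, hα, rfl⟩ := hε
    rw [mem_support_iff] at hα ⊢
    show coeff (Finsupp.cons (a 0) α) _ ≠ 0
    rw [h1]
    exact mul_ne_zero ha hα
  refine le_trans ?_ (Finset.sum_le_sum_of_subset_of_nonneg h2 fun _ _ _ => abs_nonneg _)
  rw [Finset.sum_map]
  refine Finset.sum_le_sum fun α _ => ?_
  show _ ≤ |((coeff (Finsupp.cons (a 0) α) (emb0 u * emb1 v) : ℤ) : ℝ)|
  rw [h1]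
  push_cast
  rw [abs_mul]
  have h3 : (1 : ℝ) ≤ |((coeff a u : ℤ) : ℝ)| := by exact_mod_cast Int.one_le_abs ha
  exact le_mul_of_one_le_left (abs_nonneg _) h3

theorem l1_left_le (u : MvPolynomial (Fin 1) ℤ) (v : MvPolynomial (Fin m) ℤ) (hv : v ≠ 0) :
    l1 u ≤ l1 (emb0 u * emb1 v) := by
  classical
  obtain ⟨α, hα⟩ := support_nonempty.mpr hv
  rw [mem_support_iff] at hα
  have hsing : ∀ a : Fin 1 →₀ ℕ, Finsupp.single 0 (a 0) = a := by
    intro a
    apply Finsupp.ext
    intro j
    rw [Subsingleton.elim j 0]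
    simp
  have h1 : ∀ a : Fin 1 →₀ ℕ, coeff (Finsupp.cons (a 0) α) (emb0 u * emb1 v) =
      coeff a u * coeff α v := by
    intro a
    rw [coeff_emb, Finsupp.cons_zero, Finsupp.tail_cons, hsing]
  have hinj : Function.Injective fun a : Fin 1 →₀ ℕ => Finsupp.cons (a 0) α := by
    intro a b hab
    have h2 := DFunLike.congr_fun hab 0
    rw [← hsing a, ← hsing b]
    simpa using h2
  have h2 : (u.support.map ⟨fun a : Fin 1 →₀ ℕ => Finsupp.cons (a 0) α, hinj⟩) ⊆
      (emb0 u * emb1 v : MvPolynomial (Fin (m + 1)) ℤ).support := by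
    intro ε hε
    rw [Finset.mem_map] at hε
    obtain ⟨a, ha, rfl⟩ := hε
    rw [mem_support_iff] at ha ⊢
    show coeff (Finsupp.cons (a 0) α) _ ≠ 0
    rw [h1]
    exact mul_ne_zero ha hα
  refine le_trans ?_ (Finset.sum_le_sum_of_subset_of_nonneg h2 fun _ _ _ => abs_nonneg _)
  rw [Finset.sum_map]
  refine Finset.sum_le_sum fun a _ => ?_
  show _ ≤ |((coeff (Finsupp.cons (a 0) α) (emb0 u * emb1 v) : ℤ) : ℝ)|
  rw [h1]
  push_cast
  rw [abs_mul]
  have h3 : (1 : ℝ) ≤ |((coeff α v : ℤ) : ℝ)| := by exact_mod_cast Int.one_le_abs hα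
  exact le_mul_of_one_le_right (abs_nonneg _) h3

theorem degreeOf_right_le (u : MvPolynomial (Fin 1) ℤ) (v : MvPolynomial (Fin m) ℤ) (hu : u ≠ 0)
    (h : Fin m) : v.degreeOf h ≤ (emb0 u * emb1 v).degreeOf h.succ := by
  classical
  obtain ⟨a, ha⟩ := support_nonempty.mpr hu
  rw [mem_support_iff] at ha
  have ha' : a = Finsupp.single 0 (a 0) := by
    apply Finsupp.ext
    intro j
    rw [Subsingleton.elim j 0]
    simp
  rw [degreeOf_le_iff]
  intro α hα
  have h1 : Finsupp.cons (a 0) α ∈ (emb0 u * emb1 v : MvPolynomial (Fin (m + 1)) ℤ).support := by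
    rw [mem_support_iff] at hα ⊢
    rw [coeff_emb, Finsupp.cons_zero, Finsupp.tail_cons, ← ha']
    exact mul_ne_zero ha hα
  have h2 := monomial_le_degreeOf h.succ h1
  rwa [Finsupp.cons_succ] at h2

end factor

end Pool.Agent.Helper5.Roth
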