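import Pool.Agent.Helper5.Roth.Split

/-!
# The sum of the absolute values of the coefficients
-/

set_option autoImplicit false
set_option linter.unusedSectionVars false

namespace Pool.Agent.Helper5.Roth

open MvPolynomial

section l1

variable {σ : Type*}

/-- the sum of the absolute values of the coefficients -/
noncomputable def l1 (P : MvPolynomial σ ℤ) : ℝ := ∑ α ∈ P.support, |((coeff α P : ℤ) : ℝ)|

theorem l1_eq_of_subset {P : MvPolynomial σ ℤ} {s : Finset (σ →₀ ℕ)} (h : P.support ⊆ s) :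
    l1 P = ∑ α ∈ s, |((coeff α P : ℤ) : ℝ)| := by
  refine Finset.sum_subset h fun α _ hα => ?_
  rw [notMem_support_iff] at hα
  rw [hα]
  simp

theorem l1_nonneg (P : MvPolynomial σ ℤ) : 0 ≤ l1 P := Finset.sum_nonneg fun _ _ => abs_nonneg _

theorem l1_zero : l1 (0 : MvPolynomial σ ℤ) = 0 := by simp [l1]

theorem one_le_l1 {P : MvPolynomial σ ℤ} (hP : P ≠ 0) : 1 ≤ l1 P := by
  obtain ⟨α, hα⟩ := support_nonempty.mpr hP
  have h1 : (1 : ℝ) ≤ |((coeff α P : ℤ) : ℝ)| := by
    rw [mem_support_iff] at hα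
    exact_mod_cast Int.one_le_abs hα
  exact h1.trans (Finset.single_le_sum (f := fun α => |((coeff α P : ℤ) : ℝ)|)
    (fun _ _ => abs_nonneg _) hα)

theorem abs_coeff_le_l1 (P : MvPolynomial σ ℤ) (α : σ →₀ ℕ) : |((coeff α P : ℤ) : ℝ)| ≤ l1 P := by
  by_cases hα : α ∈ P.support
  · exact Finset.single_le_sum (f := fun α => |((coeff α P : ℤ) : ℝ)|) (fun _ _ => abs_nonneg _) hα
  · rw [notMem_support_iff] at hα
    rw [hα]
    simpa using l1_nonneg P

theorem l1_add_le (P Q : MvPolynomial σ ℤ) : l1 (P + Q) ≤ l1 P + l1 Q := by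
  classical
  rw [l1_eq_of_subset (s := P.support ∪ Q.support) (P := P + Q) (support_add),
    l1_eq_of_subset (s := P.support ∪ Q.support) (P := P) Finset.subset_union_left,
    l1_eq_of_subset (s := P.support ∪ Q.support) (P := Q) Finset.subset_union_right,
    ← Finset.sum_add_distrib]
  refine Finset.sum_le_sum fun α _ => ?_
  rw [coeff_add]
  push_cast
  exact abs_add_le _ _

theorem l1_sum_le {ι : Type*} (s : Finset ι) (f : ι → MvPolynomial σ ℤ) :
    l1 (∑ i ∈ s, f i) ≤ ∑ i ∈ s, l1 (f i) := by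
  classical
  induction s using Finset.induction_on with
  | empty => simp [l1_zero]
  | insert i s hi ih =>
    rw [Finset.sum_insert hi, Finset.sum_insert hi]
    exact (l1_add_le _ _).trans (by linarith)

theorem l1_monomial_mul (α : σ →₀ ℕ) (c : ℤ) (Q : MvPolynomial σ ℤ) :
    l1 (monomial α c * Q) = |(c : ℝ)| * l1 Q := by
  classical
  have h1 : (monomial α c * Q).support ⊆ Q.support.map (addLeftEmbedding α) := by
    intro β hβ
    rw [mem_support_iff, coeff_monomial_mul'] at hβ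
    split_ifs at hβ with h
    · rw [Finset.mem_map]
      refine ⟨β - α, ?_, ?_⟩
      · rw [mem_support_iff]
        exact right_ne_zero_of_mul hβ
      · show α + (β - α) = β
        exact add_tsub_cancel_of_le h
    · exact absurd rfl hβ
  rw [l1_eq_of_subset h1, Finset.sum_map, l1, Finset.mul_sum]
  refine Finset.sum_congr rfl fun β _ => ?_
  show |((coeff (α + β) (monomial α c * Q) : ℤ) : ℝ)| = _
  rw [coeff_monomial_mul]
  push_cast
  rw [abs_mul]

theorem l1_mul_le (P Q : MvPolynomial σ ℤ) : l1 (P * Q) ≤ l1 P * l1 Q := by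
  conv_lhs => rw [P.as_sum, Finset.sum_mul]
  refine (l1_sum_le _ _).trans ?_
  rw [l1, Finset.sum_mul]
  exact Finset.sum_le_sum fun α _ => (l1_monomial_mul _ _ _).le

theorem l1_one : l1 (1 : MvPolynomial σ ℤ) = 1 := by
  classical
  rw [l1, ← C_1, C_apply, support_monomial, if_neg one_ne_zero]
  simp

theorem l1_neg (P : MvPolynomial σ ℤ) : l1 (-P) = l1 P := by
  simp [l1, support_neg]

theorem l1_prod_le {ι : Type*} (s : Finset ι) (f : ι → MvPolynomial σ ℤ) :
    l1 (∏ i ∈ s, f i) ≤ ∏ i ∈ s, l1 (f i) := by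
  classical
  induction s using Finset.induction_on with
  | empty => simp [l1_one]
  | insert i s hi ih =>
    rw [Finset.prod_insert hi, Finset.prod_insert hi]
    exact (l1_mul_le _ _).trans (mul_le_mul_of_nonneg_left ih (l1_nonneg _))

theorem l1_det_le {k : ℕ} (E : Matrix (Fin k) (Fin k) (MvPolynomial σ ℤ)) (B : ℝ)
    (hB : ∀ i j, l1 (E i j) ≤ B) : l1 E.det ≤ (k.factorial : ℝ) * B ^ k := by
  classical
  rw [Matrix.det_apply]
  refine (l1_sum_le _ _).trans ?_
  have h1 : ∀ τ : Equiv.Perm (Fin k), l1 (Equiv.Perm.sign τ • ∏ i, E (τ i) i) ≤ B ^ k := by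
    intro τ
    have h2 : l1 (Equiv.Perm.sign τ • ∏ i, E (τ i) i) = l1 (∏ i, E (τ i) i) := by
      rcases Int.units_eq_one_or (Equiv.Perm.sign τ) with h | h
      · rw [h, one_smul]
      · rw [h, Units.neg_smul, one_smul, l1_neg]
    rw [h2]
    refine (l1_prod_le _ _).trans ?_
    refine (Finset.prod_le_prod (fun _ _ => l1_nonneg _) fun i _ => hB _ _).trans ?_
    simp
  refine (Finset.sum_le_sum fun τ _ => h1 τ).trans ?_
  rw [Finset.sum_const, nsmul_eq_mul, Finset.card_univ, Fintype.card_perm, Fintype.card_fin]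

theorem chv_le {σ : Type*} [Fintype σ] (α β : σ →₀ ℕ) : chv α β ≤ 2 ^ (∑ h, α h) := by
  unfold chv
  rw [← Finset.prod_pow_eq_pow_sum]
  exact Finset.prod_le_prod' fun h _ => Nat.choose_le_two_pow _ _

theorem l1_hd_le {σ : Type*} [Fintype σ] (β : σ →₀ ℕ) (P : MvPolynomial σ ℤ) (r : σ → ℕ)
    (hr : ∀ h, P.degreeOf h ≤ r h) : l1 (hd β P) ≤ 2 ^ (∑ h, r h) * l1 P := by
  classical
  have h1 : hd β P = ∑ α ∈ P.support, monomial (α - β) (coeff α P * (chv α β : ℤ)) := by
    conv_lhs => rw [P.as_sum, map_sum]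
    refine Finset.sum_congr rfl fun α _ => ?_
    rw [hd_monomial]
  rw [h1]
  refine (l1_sum_le _ _).trans ?_
  have hl : l1 P = ∑ α ∈ P.support, |((coeff α P : ℤ) : ℝ)| := rfl
  rw [hl, Finset.mul_sum]
  refine Finset.sum_le_sum fun α hα => ?_
  have h2 : l1 (monomial (α - β) (coeff α P * (chv α β : ℤ))) =
      |((coeff α P * (chv α β : ℤ) : ℤ) : ℝ)| := by
    have := l1_monomial_mul (α - β) (coeff α P * (chv α β : ℤ)) 1
    rwa [mul_one, l1_one, mul_one] at this
  rw [h2]
  push_cast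
  rw [abs_mul, mul_comm]
  refine mul_le_mul_of_nonneg_right ?_ (abs_nonneg _)
  rw [abs_of_nonneg (by positivity)]
  have h3 : ∑ h, α h ≤ ∑ h, r h := Finset.sum_le_sum fun h _ =>
    (MvPolynomial.monomial_le_degreeOf h hα).trans (hr h)
  have h4 := (chv_le α β).trans (Nat.pow_le_pow_right (by norm_num) h3)
  exact_mod_cast h4

end l1

end Pool.Agent.Helper5.Roth
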