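import Pool.Agent.Helper5.Roth.Wronsk

/-!
# Separating the first variable
-/

set_option autoImplicit false
set_option linter.unusedSectionVars false

namespace Pool.Agent.Helper5.Roth

open MvPolynomial

section emb

variable {m : ℕ} {R : Type*} [CommRing R]

/-- a polynomial in the first variable, seen in `m + 1` variables -/
noncomputable def emb0 : MvPolynomial (Fin 1) R →ₐ[R] MvPolynomial (Fin (m + 1)) R :=
  rename fun _ => 0

/-- a polynomial in the other variables, seen in `m + 1` variables -/
noncomputable def emb1 : MvPolynomial (Fin m) R →ₐ[R] MvPolynomial (Fin (m + 1)) R :=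
  rename Fin.succ

theorem coeff_emb (ψ : MvPolynomial (Fin 1) R) (φ : MvPolynomial (Fin m) R)
    (ε : Fin (m + 1) →₀ ℕ) : coeff ε (emb0 ψ * emb1 φ) =
      coeff (Finsupp.single 0 (ε 0)) ψ * coeff ε.tail φ := by
  classical
  induction ψ using MvPolynomial.induction_on' with
  | add ψ ψ' h h' =>
    rw [map_add, add_mul, coeff_add, h, h', coeff_add, add_mul]
  | monomial a c =>
    induction φ using MvPolynomial.induction_on' with
    | add φ φ' h h' =>
      rw [map_add, mul_add, coeff_add, h, h', coeff_add, mul_add]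
    | monomial α d =>
      rw [emb0, emb1, rename_monomial, rename_monomial, monomial_mul, coeff_monomial,
        coeff_monomial, coeff_monomial]
      have h1 : Finsupp.mapDomain (fun _ : Fin 1 => (0 : Fin (m + 1))) a +
          Finsupp.mapDomain Fin.succ α = Finsupp.cons (a 0) α := by
        ext i
        refine Fin.cases ?_ (fun i => ?_) i
        · rw [Finsupp.add_apply, Finsupp.cons_zero]
          have h2 : a = Finsupp.single 0 (a 0) := by
            apply Finsupp.ext
            intro i
            rw [Subsingleton.elim i 0]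
            simp
          have h3 : Finsupp.mapDomain Fin.succ α 0 = 0 := by
            apply Finsupp.mapDomain_of_notMem_range
            rintro ⟨i, hi⟩
            exact Fin.succ_ne_zero i hi
          rw [h3, h2, Finsupp.mapDomain_single]
          simp
        · rw [Finsupp.add_apply, Finsupp.cons_succ]
          have h3 : Finsupp.mapDomain (fun _ : Fin 1 => (0 : Fin (m + 1))) a i.succ = 0 := by
            apply Finsupp.mapDomain_of_notMem_range
            rintro ⟨j, hj⟩
            exact Fin.succ_ne_zero i hj.symm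
          rw [h3, Finsupp.mapDomain_apply (Fin.succ_injective m), zero_add]
      rw [h1]
      by_cases h2 : Finsupp.cons (a 0) α = ε
      · subst h2
        rw [if_pos rfl, if_pos, if_pos]
        · simp
        · apply Finsupp.ext
          intro i
          rw [Subsingleton.elim i 0]
          simp
      · rw [if_neg h2]
        by_cases h3 : a = Finsupp.single 0 (ε 0)
        · rw [if_pos h3, if_neg, mul_zero]
          intro h4
          apply h2
          rw [h4, h3]
          simp
        · rw [if_neg h3, zero_mul]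

theorem chv_cons (γ ε : Fin (m + 1) →₀ ℕ) : chv γ ε =
    chv (Finsupp.single (0 : Fin 1) (γ 0)) (Finsupp.single 0 (ε 0)) * chv γ.tail ε.tail := by
  unfold chv
  rw [Fin.prod_univ_succ]
  simp [Finsupp.tail_apply]

theorem hd_emb (ε : Fin (m + 1) →₀ ℕ) (ψ : MvPolynomial (Fin 1) R)
    (φ : MvPolynomial (Fin m) R) :
    hd ε (emb0 ψ * emb1 φ) = emb0 (hd (Finsupp.single 0 (ε 0)) ψ) * emb1 (hd ε.tail φ) := by
  ext γ
  rw [coeff_hd, coeff_emb, coeff_emb, coeff_hd, coeff_hd, chv_cons]
  have h1 : (γ + ε).tail = γ.tail + ε.tail := by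
    ext i
    simp [Finsupp.tail_apply]
  have h2 : Finsupp.single (0 : Fin 1) ((γ + ε) 0) =
      Finsupp.single 0 (γ 0) + Finsupp.single 0 (ε 0) := by
    rw [← Finsupp.single_add]
    rfl
  rw [h1, h2]
  push_cast
  ring

theorem shift_emb (ξ : Fin (m + 1) → R) (ψ : MvPolynomial (Fin 1) R)
    (φ : MvPolynomial (Fin m) R) :
    shift ξ (emb0 ψ * emb1 φ) = emb0 (shift (fun _ => ξ 0) ψ) * emb1 (shift (fun i => ξ i.succ) φ) := by
  rw [map_mul]
  congr 1
  · have h : (shift ξ).comp (emb0 (m := m)) = (emb0 (m := m)).comp (shift fun _ => ξ 0) := by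
      apply MvPolynomial.algHom_ext
      intro i
      simp [shift, emb0]
    exact congrArg (fun g : MvPolynomial (Fin 1) R →ₐ[R] MvPolynomial (Fin (m + 1)) R => g ψ) h
  · have h : (shift ξ).comp (emb1 (m := m)) = (emb1 (m := m)).comp (shift fun i => ξ i.succ) := by
      apply MvPolynomial.algHom_ext
      intro i
      simp [shift, emb1]
    exact congrArg (fun g : MvPolynomial (Fin m) R →ₐ[R] MvPolynomial (Fin (m + 1)) R => g φ) h

end emb

/-- a decomposition with linearly independent factors -/
theorem exists_decomp {m : ℕ} (P : MvPolynomial (Fin (m + 1)) ℚ) (hP : P ≠ 0) (r : ℕ)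
    (hr : P.degreeOf 0 ≤ r) : ∃ (k : ℕ) (ψ : Fin k → MvPolynomial (Fin 1) ℚ)
      (φ : Fin k → MvPolynomial (Fin m) ℚ), 1 ≤ k ∧ k ≤ r + 1 ∧ LinearIndependent ℚ ψ ∧
      LinearIndependent ℚ φ ∧ P = ∑ s, emb0 (ψ s) * emb1 (φ s) := by
  classical
  let c : Fin (r + 1) → MvPolynomial (Fin m) ℚ := fun a =>
    Polynomial.coeff (finSuccEquiv ℚ m P) a
  let Φ : Submodule ℚ (MvPolynomial (Fin m) ℚ) := Submodule.span ℚ (Set.range c)
  have hfin : Module.Finite ℚ Φ := Module.Finite.span_of_finite ℚ (Set.finite_range c)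
  let k := Module.finrank ℚ Φ
  let B : Module.Basis (Fin k) ℚ Φ := Module.finBasis ℚ Φ
  have hcΦ : ∀ a, c a ∈ Φ := fun a => Submodule.subset_span ⟨a, rfl⟩
  let M : Fin (r + 1) → Fin k → ℚ := fun a s => B.repr ⟨c a, hcΦ a⟩ s
  have hM : ∀ a, c a = ∑ s, M a s • (B s : MvPolynomial (Fin m) ℚ) := by
    intro a
    have h1 := B.sum_repr ⟨c a, hcΦ a⟩
    have h2 : ((∑ i, (B.repr ⟨c a, hcΦ a⟩) i • B i : Φ) : MvPolynomial (Fin m) ℚ) = c a :=
      congrArg (Subtype.val) h1
    refine h2.symm.trans ?_
    rw [Submodule.coe_sum]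
    rfl
  let φ : Fin k → MvPolynomial (Fin m) ℚ := fun s => (B s : MvPolynomial (Fin m) ℚ)
  let ψ : Fin k → MvPolynomial (Fin 1) ℚ := fun s =>
    ∑ a : Fin (r + 1), monomial (Finsupp.single 0 (a : ℕ)) (M a s)
  have hψc : ∀ s (i : ℕ), coeff (Finsupp.single 0 i) (ψ s) =
      if h : i < r + 1 then M ⟨i, h⟩ s else 0 := by
    intro s i
    simp only [ψ, coeff_sum, coeff_monomial]
    split_ifs with h
    · rw [Finset.sum_eq_single ⟨i, h⟩]
      · simp
      · intro b _ hb
        rw [if_neg]
        intro h1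
        apply hb
        have := Finsupp.single_injective 0 h1
        exact Fin.ext this
      · intro h1
        exact absurd (Finset.mem_univ _) h1
    · refine Finset.sum_eq_zero fun b _ => ?_
      rw [if_neg]
      intro h1
      have := Finsupp.single_injective 0 h1
      omega
  refine ⟨k, ψ, φ, ?_, ?_, ?_, ?_, ?_⟩
  · rw [Nat.one_le_iff_ne_zero]
    intro hk
    have hbot : Φ = ⊥ := Submodule.finrank_eq_zero.mp hk
    apply hP
    apply (finSuccEquiv ℚ m).injective
    rw [map_zero]
    ext1 a
    rw [Polynomial.coeff_zero]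
    by_cases ha : a < r + 1
    · have := hcΦ ⟨a, ha⟩
      rw [hbot, Submodule.mem_bot] at this
      exact this
    · apply Polynomial.coeff_eq_zero_of_natDegree_lt
      rw [natDegree_finSuccEquiv]
      omega
  · have := finrank_range_le_card (R := ℚ) c
    rw [Fintype.card_fin] at this
    exact this
  · rw [Fintype.linearIndependent_iff]
    intro g hg
    let f : Φ →ₗ[ℚ] ℚ := B.constr ℚ g
    have hf : ∀ a, f ⟨c a, hcΦ a⟩ = 0 := by
      intro a
      have h1 : f ⟨c a, hcΦ a⟩ = ∑ s, M a s * g s := by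
        rw [Module.Basis.constr_apply_fintype]
        rfl
      rw [h1]
      have h2 := congrArg (coeff (Finsupp.single 0 (a : ℕ))) hg
      rw [coeff_sum, coeff_zero] at h2
      rw [← h2]
      refine Finset.sum_congr rfl fun s _ => ?_
      rw [coeff_smul, hψc, dif_pos a.2, smul_eq_mul, mul_comm]
    have hf0 : f = 0 := by
      ext ⟨x, hx⟩
      rw [LinearMap.zero_apply]
      induction hx using Submodule.span_induction with
      | mem x hx =>
        obtain ⟨a, rfl⟩ := hx
        exact hf a
      | zero => exact map_zero f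
      | add x y hx hy h1 h2 =>
        have : (⟨x + y, Φ.add_mem hx hy⟩ : Φ) = ⟨x, hx⟩ + ⟨y, hy⟩ := rfl
        rw [this, map_add, h1, h2, add_zero]
      | smul a x hx h1 =>
        have : (⟨a • x, Φ.smul_mem a hx⟩ : Φ) = a • ⟨x, hx⟩ := rfl
        rw [this, map_smul, h1, smul_zero]
    intro s
    have h3 : f (B s) = g s := B.constr_basis ℚ g s
    rw [← h3, hf0]
    rfl
  · have := B.linearIndependent.map' Φ.subtype (Submodule.ker_subtype Φ)
    exact this
  · ext ε
    rw [coeff_sum]
    have h1 : ∀ s, coeff ε (emb0 (ψ s) * emb1 (φ s)) =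
        if h : ε 0 < r + 1 then M ⟨ε 0, h⟩ s * coeff ε.tail (φ s) else 0 := by
      intro s
      rw [coeff_emb, hψc]
      split_ifs <;> simp
    rw [Finset.sum_congr rfl fun s _ => h1 s]
    have h2 : coeff ε P = coeff ε.tail (Polynomial.coeff (finSuccEquiv ℚ m P) (ε 0)) := by
      rw [finSuccEquiv_coeff_coeff, Finsupp.cons_tail]
    rw [h2]
    by_cases h : ε 0 < r + 1
    · simp only [dif_pos h]
      have h3 := hM ⟨ε 0, h⟩
      have h4 : Polynomial.coeff (finSuccEquiv ℚ m P) (ε 0) = c ⟨ε 0, h⟩ := rfl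
      rw [h4, h3, coeff_sum]
      refine Finset.sum_congr rfl fun s _ => ?_
      rw [coeff_smul, smul_eq_mul]
    · simp only [dif_neg h, Finset.sum_const_zero]
      rw [Polynomial.coeff_eq_zero_of_natDegree_lt, coeff_zero]
      rw [natDegree_finSuccEquiv]
      omega

end Pool.Agent.Helper5.Roth
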