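import Pool.Agent.Helper5.Roth.Hasse

/-!
# Generalised Wronskians of linearly independent polynomials
-/

set_option autoImplicit false
set_option linter.unusedSectionVars false

namespace Pool.Agent.Helper5.Roth

open MvPolynomial

/-! ### interpolation -/

section interp

variable {n : ℕ}

theorem chv_zero (α : Fin n →₀ ℕ) : chv α 0 = 1 := by simp [chv]

theorem chv_step (α β : Fin n →₀ ℕ) (h : Fin n) :
    ((β h : ℚ) + 1) * (chv α (β + Finsupp.single h 1) : ℚ) = (α h - β h) * (chv α β : ℚ) := by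
  classical
  unfold chv
  rw [← Finset.mul_prod_erase Finset.univ _ (Finset.mem_univ h),
    ← Finset.mul_prod_erase Finset.univ (fun i => (α i).choose (β i)) (Finset.mem_univ h)]
  have h1 : ∏ i ∈ Finset.univ.erase h, (α i).choose ((β + Finsupp.single h 1 : Fin n →₀ ℕ) i) =
      ∏ i ∈ Finset.univ.erase h, (α i).choose (β i) := by
    refine Finset.prod_congr rfl fun i hi => ?_
    rw [Finsupp.add_apply, Finsupp.single_apply, if_neg (Finset.ne_of_mem_erase hi).symm, add_zero]
  rw [h1]
  simp only [Finsupp.add_apply, Finsupp.single_eq_same]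
  push_cast
  have h2 : ((β h : ℚ) + 1) * ((α h).choose (β h + 1) : ℚ) =
      (α h - β h) * ((α h).choose (β h) : ℚ) := by
    have h3 := Nat.choose_succ_right_eq (α h) (β h)
    by_cases hle : β h ≤ α h
    · have h4 : ((α h - β h : ℕ) : ℚ) = (α h : ℚ) - β h := by push_cast [hle]; ring
      rw [← h4]
      have h5 : (((α h).choose (β h + 1) * (β h + 1) : ℕ) : ℚ) =
          ((α h).choose (β h) * (α h - β h) : ℕ) := by rw [h3]
      push_cast at h5 ⊢
      linarith
    · rw [Nat.choose_eq_zero_of_lt (by omega), Nat.choose_eq_zero_of_lt (by omega)]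
      simp
  calc ((β h : ℚ) + 1) * (((α h).choose (β h + 1) : ℚ) *
        ∏ i ∈ Finset.univ.erase h, ((α i).choose (β i) : ℚ))
      = (((β h : ℚ) + 1) * ((α h).choose (β h + 1) : ℚ)) *
        ∏ i ∈ Finset.univ.erase h, ((α i).choose (β i) : ℚ) := by ring
    _ = _ := by rw [h2]; ring

theorem interp_aux {ι : Type*} (J : Finset ι) (c : ι → ℚ) (α : ι → Fin n →₀ ℕ) (k : ℕ)
    (h : ∀ β : Fin n →₀ ℕ, β.degree < k → ∑ j ∈ J, c j * (chv (α j) β : ℚ) = 0)
    {κ : Type*} (s : Finset κ) (hh : κ → Fin n) (a : κ → ℚ) :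
    ∀ β : Fin n →₀ ℕ, β.degree + s.card < k →
      ∑ j ∈ J, c j * (∏ t ∈ s, ((α j (hh t) : ℚ) - a t)) * (chv (α j) β : ℚ) = 0 := by
  classical
  induction s using Finset.induction_on with
  | empty =>
    intro β hβ
    simpa using h β (by simpa using hβ)
  | insert t s ht ih =>
    intro β hβ
    rw [Finset.card_insert_of_notMem ht] at hβ
    have h1 := ih (β + Finsupp.single (hh t) 1) (by
      rw [map_add, Finsupp.degree_single]
      omega)
    have h2 := ih β (by omega)
    have h3 : ∀ j ∈ J, c j * (∏ u ∈ insert t s, ((α j (hh u) : ℚ) - a u)) * (chv (α j) β : ℚ) =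
        ((β (hh t) : ℚ) + 1) * (c j * (∏ u ∈ s, ((α j (hh u) : ℚ) - a u)) *
          (chv (α j) (β + Finsupp.single (hh t) 1) : ℚ)) +
        ((β (hh t) : ℚ) - a t) * (c j * (∏ u ∈ s, ((α j (hh u) : ℚ) - a u)) *
          (chv (α j) β : ℚ)) := by
      intro j _
      rw [Finset.prod_insert ht]
      have h4 := chv_step (α j) β (hh t)
      linear_combination (c j * (∏ u ∈ s, ((α j (hh u) : ℚ) - a u))) * (-h4)
    rw [Finset.sum_congr rfl h3, Finset.sum_add_distrib, ← Finset.mul_sum, ← Finset.mul_sum, h1, h2]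
    ring

theorem interp {ι : Type*} (J : Finset ι) (c : ι → ℚ) (α : ι → Fin n →₀ ℕ) (k : ℕ)
    (hk : J.card ≤ k) (hinj : Set.InjOn α J)
    (h : ∀ β : Fin n →₀ ℕ, β.degree < k → ∑ j ∈ J, c j * (chv (α j) β : ℚ) = 0) :
    ∀ j ∈ J, c j = 0 := by
  classical
  intro j0 hj0
  have hkey : ∀ j ∈ J.erase j0, ∃ i : Fin n, α j i ≠ α j0 i := by
    intro j hj
    rw [Finset.mem_erase] at hj
    by_contra hcon
    push Not at hcon
    apply hj.1
    apply hinj hj.2 hj0
    ext i
    exact hcon i
  have hcard : (J.erase j0).card < k := by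
    rw [Finset.card_erase_of_mem hj0]
    have : 0 < J.card := Finset.card_pos.mpr ⟨j0, hj0⟩
    omega
  rcases Finset.eq_empty_or_nonempty (J.erase j0) with hE | ⟨j1, hj1⟩
  · have h1 := h 0 (by simpa [hE] using hcard)
    have h2 : ∑ j ∈ J, c j * (chv (α j) (0 : Fin n →₀ ℕ) : ℚ) = c j0 := by
      rw [← Finset.add_sum_erase J _ hj0, hE]
      simp [chv_zero]
    rw [← h2, h1]
  · obtain ⟨i0, -⟩ := hkey j1 hj1
    have hne : ∀ j : ι, ∃ i : Fin n, j ∈ J.erase j0 → α j i ≠ α j0 i := by
      intro j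
      by_cases hj : j ∈ J.erase j0
      · obtain ⟨i, hi⟩ := hkey j hj
        exact ⟨i, fun _ => hi⟩
      · exact ⟨i0, fun h' => absurd h' hj⟩
    choose hh hhh using hne
    have h1 := interp_aux J c α k h (J.erase j0) hh (fun j => (α j (hh j) : ℚ)) 0
      (by simpa using hcard)
    rw [← Finset.add_sum_erase J _ hj0, Finset.sum_eq_zero (s := J.erase j0)] at h1
    · rw [chv_zero, add_zero, Nat.cast_one, mul_one] at h1
      rcases mul_eq_zero.mp h1 with h2 | h2
      · exact h2
      · exfalso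
        rw [Finset.prod_eq_zero_iff] at h2
        obtain ⟨j, hj, hj2⟩ := h2
        apply hhh j hj
        have : (α j0 (hh j) : ℚ) = (α j (hh j) : ℚ) := by linarith
        exact_mod_cast this.symm
    · intro j hj
      rw [Finset.prod_eq_zero hj (by simp)]
      simp

end interp

/-! ### echelon form -/

section echelon

variable {n k : ℕ}

/-- the linear combination with coefficients the `i`-th row of `T` -/
noncomputable def comb (T : Matrix (Fin k) (Fin k) ℚ) (φ : Fin k → MvPolynomial (Fin n) ℚ)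
    (i : Fin k) : MvPolynomial (Fin n) ℚ := ∑ j, C (T i j) * φ j

theorem comb_ne_zero {φ : Fin k → MvPolynomial (Fin n) ℚ} (hφ : LinearIndependent ℚ φ)
    {T : Matrix (Fin k) (Fin k) ℚ} (hT : T.det ≠ 0) (i : Fin k) : comb T φ i ≠ 0 := by
  intro h0
  rw [Fintype.linearIndependent_iff] at hφ
  have h1 := hφ (T i) (by
    rw [← h0]
    refine Finset.sum_congr rfl fun j _ => ?_
    rw [MvPolynomial.smul_eq_C_mul])
  exact hT (Matrix.det_eq_zero_of_row_eq_zero i h1)

theorem exists_echelon (m : MonomialOrder (Fin n)) (φ : Fin k → MvPolynomial (Fin n) ℚ)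
    (hφ : LinearIndependent ℚ φ) : ∃ T : Matrix (Fin k) (Fin k) ℚ, T.det ≠ 0 ∧
      Function.Injective fun i => m.degree (comb T φ i) := by
  classical
  let μ : Matrix (Fin k) (Fin k) ℚ → m.syn := fun T => ∑ i, m.toSyn (m.degree (comb T φ i))
  have hne : {T : Matrix (Fin k) (Fin k) ℚ | T.det ≠ 0}.Nonempty := ⟨1, by simp⟩
  have hwf : WellFounded (InvImage (· < ·) μ) := InvImage.wf μ wellFounded_lt
  refine ⟨hwf.min _ hne, hwf.min_mem _ hne, ?_⟩
  have hmin : ∀ T' : Matrix (Fin k) (Fin k) ℚ, T'.det ≠ 0 → ¬ μ T' < μ (hwf.min _ hne) :=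
    fun T' hT' => hwf.not_lt_min _ hT'
  have hT : (hwf.min _ hne).det ≠ 0 := hwf.min_mem _ hne
  generalize hwf.min _ hne = T at hmin hT
  intro i j hij
  by_contra hne'
  have hij' : m.degree (comb T φ i) = m.degree (comb T φ j) := hij
  have hi0 := comb_ne_zero hφ hT i
  have hj0 := comb_ne_zero hφ hT j
  set c := m.leadingCoeff (comb T φ i) / m.leadingCoeff (comb T φ j) with hc
  have hlj : m.leadingCoeff (comb T φ j) ≠ 0 := m.leadingCoeff_ne_zero_iff.mpr hj0
  let v : Fin k → ℚ := Pi.single i 1 - Pi.single j c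
  let T' := T.updateRow i (∑ l, v l • T l)
  have hdet : T'.det = T.det := by
    have h1 := Matrix.det_updateRow_sum T i v
    have h2 : v i = 1 := by simp [v, Pi.single_eq_of_ne hne']
    rw [h2, one_smul] at h1
    exact h1
  have hrow : ∑ l, v l • T l = T i - c • T j := by
    simp only [v, Pi.sub_apply, sub_smul, Finset.sum_sub_distrib]
    congr 1
    · rw [Finset.sum_eq_single i]
      · simp
      · intro l _ hl
        simp [Pi.single_eq_of_ne hl]
      · intro h
        exact absurd (Finset.mem_univ i) h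
    · rw [Finset.sum_eq_single j]
      · simp
      · intro l _ hl
        simp [Pi.single_eq_of_ne hl]
      · intro h
        exact absurd (Finset.mem_univ j) h
  have hT'i : comb T' φ i = comb T φ i - C c * comb T φ j := by
    simp only [comb, T', hrow, Matrix.updateRow_self, Pi.sub_apply, Pi.smul_apply, smul_eq_mul,
      C_sub, sub_mul, Finset.sum_sub_distrib, Finset.mul_sum, C_mul, mul_assoc]
  have hT'l : ∀ l, l ≠ i → comb T' φ l = comb T φ l := by
    intro l hl
    simp only [comb, T']
    refine Finset.sum_congr rfl fun x _ => ?_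
    rw [Matrix.updateRow_ne hl]
  refine hmin T' (by rw [hdet]; exact hT) ?_
  have hlt : m.toSyn (m.degree (comb T' φ i)) < m.toSyn (m.degree (comb T φ i)) := by
    have hne0 : comb T' φ i ≠ 0 := comb_ne_zero hφ (by rw [hdet]; exact hT) i
    refine lt_of_le_of_ne ?_ ?_
    · rw [hT'i]
      refine m.degree_sub_le.trans ?_
      rw [sup_le_iff]
      refine ⟨le_rfl, ?_⟩
      rw [hij', ← smul_eq_C_mul]
      exact m.degree_smul_le
    · intro h1
      have h2 := m.toSyn.injective h1
      have h3 := (m.coeff_degree_ne_zero_iff).mpr hne0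
      apply h3
      rw [h2, hT'i, coeff_sub, coeff_C_mul]
      have h4 : coeff (m.degree (comb T φ i)) (comb T φ i) = m.leadingCoeff (comb T φ i) := rfl
      have h5 : coeff (m.degree (comb T φ i)) (comb T φ j) = m.leadingCoeff (comb T φ j) := by
        rw [hij']
        rfl
      rw [h4, h5, hc, div_mul_cancel₀ _ hlj, sub_self]
  show ∑ l, m.toSyn (m.degree (comb T' φ l)) < ∑ l, m.toSyn (m.degree (comb T φ l))
  refine Finset.sum_lt_sum (fun l _ => ?_) ⟨i, Finset.mem_univ i, hlt⟩
  by_cases hl : l = i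
  · rw [hl]
    exact hlt.le
  · rw [hT'l l hl]

end echelon


/-! ### the kernel -/

section kernel

variable {n k : ℕ}

/-- `X^β` times the Hasse derivative of order `β`; it is diagonal on monomials -/
noncomputable def eul (β : Fin n →₀ ℕ) (P : MvPolynomial (Fin n) ℚ) : MvPolynomial (Fin n) ℚ :=
  monomial β 1 * hd β P

theorem coeff_eul (β α : Fin n →₀ ℕ) (P : MvPolynomial (Fin n) ℚ) :
    coeff α (eul β P) = (chv α β : ℚ) * coeff α P := by
  classical
  rw [eul, coeff_monomial_mul']
  split_ifs with h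
  · rw [coeff_hd, tsub_add_cancel_of_le h, one_mul]
  · rw [chv_eq_zero h]
    simp

theorem degree_eul_le (m : MonomialOrder (Fin n)) (β : Fin n →₀ ℕ)
    (P : MvPolynomial (Fin n) ℚ) : m.toSyn (m.degree (eul β P)) ≤ m.toSyn (m.degree P) := by
  apply m.degree_le_degree_of_support_subset
  intro α hα
  rw [mem_support_iff] at hα ⊢
  intro h
  rw [coeff_eul, h, mul_zero] at hα
  exact hα rfl

theorem kernel_trivial (m : MonomialOrder (Fin n)) (ψ : Fin k → MvPolynomial (Fin n) ℚ)
    (h0 : ∀ j, ψ j ≠ 0) (hinj : Function.Injective fun i => m.degree (ψ i))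
    (F : Fin k → MvPolynomial (Fin n) ℚ)
    (hF : ∀ β : Fin n →₀ ℕ, β.degree < k → ∑ j, F j * hd β (ψ j) = 0) : ∀ j, F j = 0 := by
  classical
  have hF' : ∀ β : Fin n →₀ ℕ, β.degree < k → ∑ j, F j * eul β (ψ j) = 0 := by
    intro β hβ
    have h1 : ∑ j, F j * eul β (ψ j) = monomial β 1 * ∑ j, F j * hd β (ψ j) := by
      rw [Finset.mul_sum]
      refine Finset.sum_congr rfl fun j _ => ?_
      rw [eul]
      ring
    rw [h1, hF β hβ, mul_zero]
  by_contra hcon
  push Not at hcon
  obtain ⟨j1, hj1⟩ := hcon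
  let S := Finset.univ.filter fun j => F j ≠ 0
  have hS : S.Nonempty := ⟨j1, Finset.mem_filter.mpr ⟨Finset.mem_univ _, hj1⟩⟩
  obtain ⟨jm, hjm, hmax⟩ := S.exists_max_image
    (fun j => m.toSyn (m.degree (F j) + m.degree (ψ j))) hS
  have hjm0 : F jm ≠ 0 := (Finset.mem_filter.mp hjm).2
  set ν := m.degree (F jm) + m.degree (ψ jm) with hν
  let J := S.filter fun j => m.degree (F j) + m.degree (ψ j) = ν
  have hcoef : ∀ (β : Fin n →₀ ℕ) (j : Fin k), coeff ν (F j * eul β (ψ j)) =
      if j ∈ J then m.leadingCoeff (F j) * m.leadingCoeff (ψ j) *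
        (chv (m.degree (ψ j)) β : ℚ) else 0 := by
    intro β j
    by_cases hj : j ∈ J
    · rw [if_pos hj]
      have hj2 : m.degree (F j) + m.degree (ψ j) = ν := (Finset.mem_filter.mp hj).2
      rw [← hj2, m.coeff_mul_of_add_of_degree_le le_rfl (degree_eul_le m β (ψ j)), coeff_eul]
      show m.leadingCoeff (F j) * (_ * m.leadingCoeff (ψ j)) = _
      ring
    · rw [if_neg hj]
      by_cases hFj : F j = 0
      · rw [hFj, zero_mul, coeff_zero]
      · have hjS : j ∈ S := Finset.mem_filter.mpr ⟨Finset.mem_univ _, hFj⟩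
        have h2 : m.degree (F j) + m.degree (ψ j) ≠ ν := fun h =>
          hj (Finset.mem_filter.mpr ⟨hjS, h⟩)
        have h3 : m.toSyn (m.degree (F j) + m.degree (ψ j)) < m.toSyn ν :=
          lt_of_le_of_ne (hmax j hjS) fun h => h2 (m.toSyn.injective h)
        apply m.coeff_eq_zero_of_lt
        refine lt_of_le_of_lt ?_ h3
        refine m.degree_mul_le.trans ?_
        rw [map_add, map_add]
        exact add_le_add_right (degree_eul_le m β (ψ j)) _
  have hsum : ∀ β : Fin n →₀ ℕ, β.degree < k → ∑ j ∈ J,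
      (m.leadingCoeff (F j) * m.leadingCoeff (ψ j)) * (chv (m.degree (ψ j)) β : ℚ) = 0 := by
    intro β hβ
    have h1 := congrArg (coeff ν) (hF' β hβ)
    rw [coeff_sum, coeff_zero, Finset.sum_congr rfl fun j _ => hcoef β j, ← Finset.sum_filter] at h1
    rw [← h1]
    refine Finset.sum_congr ?_ fun _ _ => rfl
    ext j
    simp
  have hJ := interp J (fun j => m.leadingCoeff (F j) * m.leadingCoeff (ψ j))
    (fun j => m.degree (ψ j)) k ((Finset.card_le_univ J).trans (by simp)) hinj.injOn hsum
  have hjmJ : jm ∈ J := Finset.mem_filter.mpr ⟨hjm, rfl⟩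
  have h4 := hJ jm hjmJ
  rcases mul_eq_zero.mp h4 with h5 | h5
  · exact (m.leadingCoeff_ne_zero_iff.mpr hjm0) h5
  · exact (m.leadingCoeff_ne_zero_iff.mpr (h0 jm)) h5

/-- selecting rows -/
theorem exists_rows {A : Type*} [CommRing A] [IsDomain A] {ι : Type*}
    (v : ι → Fin k → A) (h : ∀ F : Fin k → A, (∀ i, ∑ j, F j * v i j = 0) → ∀ j, F j = 0) :
    ∃ b : Fin k → ι, (Matrix.of fun i j => v (b i) j).det ≠ 0 := by
  classical
  let K := FractionRing A
  let w : ι → Fin k → K := fun i j => algebraMap A K (v i j)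
  have hspan : Submodule.span K (Set.range w) = ⊤ := by
    by_contra hne
    obtain ⟨f, hf0, hf⟩ := (Submodule.span K (Set.range w)).exists_le_ker_of_lt_top
      (lt_top_iff_ne_top.mpr hne)
    apply hf0
    obtain ⟨b, hb⟩ := IsLocalization.exist_integer_multiples_of_finite (nonZeroDivisors A)
      (fun j : Fin k => f (Pi.single j 1))
    choose F hF using hb
    have hfw : ∀ x : Fin k → K, f x = ∑ j, x j * f (Pi.single j 1) := by
      intro x
      conv_lhs => rw [← Finset.univ_sum_single x]
      rw [map_sum]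
      refine Finset.sum_congr rfl fun j _ => ?_
      have : (Pi.single j (x j) : Fin k → K) = (x j) • (Pi.single j (1 : K)) := by
        ext l
        simp [Pi.single_apply]
      rw [this, map_smul, smul_eq_mul]
    have hFz : ∀ j, F j = 0 := by
      apply h
      intro i
      have h1 : f (w i) = 0 := hf (Submodule.subset_span ⟨i, rfl⟩)
      apply IsFractionRing.injective A K
      rw [map_sum, map_zero]
      have h2 : ∀ j, algebraMap A K (F j * v i j) =
          algebraMap A K (b : A) * (w i j * f (Pi.single j 1)) := by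
        intro j
        rw [map_mul, hF j]
        show ((b : A) • f (Pi.single j 1)) * w i j = _
        rw [Algebra.smul_def]
        ring
      rw [Finset.sum_congr rfl fun j _ => h2 j, ← Finset.mul_sum, ← hfw, h1, mul_zero]
    have hb0 : algebraMap A K (b : A) ≠ 0 := by
      rw [Ne, map_eq_zero_iff _ (IsFractionRing.injective A K)]
      exact nonZeroDivisors.ne_zero b.2
    ext j
    simp only [LinearMap.coe_comp, Function.comp_apply, LinearMap.coe_single,
      LinearMap.zero_comp, LinearMap.zero_apply]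
    have h3 := hF j
    rw [hFz j, map_zero] at h3
    have h4 : algebraMap A K (b : A) * f (Pi.single j 1) = 0 := by
      rw [← Algebra.smul_def]
      exact h3.symm
    rcases mul_eq_zero.mp h4 with h5 | h5
    · exact absurd h5 hb0
    · exact h5
  obtain ⟨κ, a, -, ha, hli⟩ := exists_linearIndependent' K w
  rw [hspan] at ha
  let B : Module.Basis κ K (Fin k → K) := Module.Basis.mk hli ha.ge
  have : Finite κ := Module.Finite.finite_basis B
  have := Fintype.ofFinite κ
  have hcard : Fintype.card κ = Fintype.card (Fin k) := by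
    rw [← Module.finrank_eq_card_basis B, Module.finrank_fintype_fun_eq_card]
  let e : Fin k ≃ κ := (Fintype.equivOfCardEq hcard).symm
  refine ⟨fun i => a (e i), ?_⟩
  have h6 : LinearIndependent K (fun i => w (a (e i))) := hli.comp e e.injective
  have h7 : IsUnit (Matrix.of fun i j => w (a (e i)) j) := by
    rw [← Matrix.linearIndependent_rows_iff_isUnit]
    exact h6
  rw [Matrix.isUnit_iff_isUnit_det] at h7
  intro h8
  apply h7.ne_zero
  have h9 : (Matrix.of fun i j => w (a (e i)) j) =
      (algebraMap A K).mapMatrix (Matrix.of fun i j => v (a (e i)) j) := by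
    ext i j
    rfl
  rw [h9, ← RingHom.map_det, h8, map_zero]

theorem exists_wronskian (φ : Fin k → MvPolynomial (Fin n) ℚ) (hφ : LinearIndependent ℚ φ) :
    ∃ β : Fin k → (Fin n →₀ ℕ), (∀ i, (β i).degree < k) ∧
      (Matrix.of fun i j => hd (β i) (φ j)).det ≠ 0 := by
  classical
  obtain ⟨T, hT, hinj⟩ := exists_echelon MonomialOrder.lex φ hφ
  obtain ⟨b, hb⟩ := exists_rows (A := MvPolynomial (Fin n) ℚ)
    (ι := {β : Fin n →₀ ℕ // β.degree < k}) (fun β j => hd β.1 (comb T φ j))
    (fun F hF => kernel_trivial MonomialOrder.lex (comb T φ) (comb_ne_zero hφ hT) hinj F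
      fun β hβ => hF ⟨β, hβ⟩)
  refine ⟨fun i => (b i).1, fun i => (b i).2, fun h0 => hb ?_⟩
  have h1 : (Matrix.of fun i j => hd (b i).1 (comb T φ j)) =
      (Matrix.of fun i j => hd (b i).1 (φ j)) *
        (Matrix.of fun i j => (C (T j i) : MvPolynomial (Fin n) ℚ)) := by
    ext1 i j
    rw [Matrix.mul_apply]
    simp only [Matrix.of_apply, comb, map_sum, hd_C_mul]
    refine Finset.sum_congr rfl fun l _ => mul_comm _ _
  rw [h1, Matrix.det_mul, h0, zero_mul]

end kernel

end Pool.Agent.Helper5.Roth
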